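import Pool.Agent.LVL.Stmts2
import Pool.Agent.Lib_helper96.Legendre

/-!
# Level sets of the Legendre walk: the main inequality
-/

open Finset

namespace Pool.Agent.LVL

open Pool.Agent.Lib_helper96.Legendre

lemma two_pow_ten (k : ℕ) : 2 ^ (10 * k) = 1024 ^ k := by
  rw [pow_mul]; norm_num

/-- the decay factor -/
noncomputable def kp : ℝ := 1 - 1 / (432 * 1024)

lemma kp_pos : 0 < kp := by unfold kp; norm_num
lemma kp_lt_one : kp < 1 := by unfold kp; norm_num

section

variable (p : ℕ) [Fact p.Prime]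

/-- the signs `χ(a + m + 1)` seen from `a` (with the value `0` replaced by `1`) -/
noncomputable def ea (a m : ℕ) : ℝ :=
  if quadraticChar (ZMod p) ((a + m + 1 : ℕ) : ZMod p) = 0 then 1
  else ((quadraticChar (ZMod p) ((a + m + 1 : ℕ) : ZMod p) : ℤ) : ℝ)

lemma chi_cases (x : ZMod p) : quadraticChar (ZMod p) x = 0 ∨ quadraticChar (ZMod p) x = 1 ∨
    quadraticChar (ZMod p) x = -1 := by
  by_cases hx : x = 0
  · left; rw [hx]; simp
  · right; exact quadraticChar_dichotomy hx

lemma abs_chi_le (x : ZMod p) : |((quadraticChar (ZMod p) x : ℤ) : ℝ)| ≤ 1 := by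
  rcases chi_cases p x with h | h | h <;> rw [h] <;> norm_num

lemma ea_sign (a m : ℕ) : ea p a m = 1 ∨ ea p a m = -1 := by
  unfold ea
  split_ifs with h
  · exact Or.inl rfl
  · rcases chi_cases p ((a + m + 1 : ℕ) : ZMod p) with h' | h' | h'
    · exact absurd h' h
    · left; rw [h']; norm_num
    · right; rw [h']; norm_num

lemma ea_eq (a m : ℕ) (h : a + m + 1 < p) :
    ea p a m = ((quadraticChar (ZMod p) ((a + m + 1 : ℕ) : ZMod p) : ℤ) : ℝ) := by
  unfold ea
  rw [if_neg]
  intro h0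
  rw [quadraticChar_eq_zero_iff, ZMod.natCast_eq_zero_iff] at h0
  exact absurd (Nat.le_of_dvd (by omega) h0) (by omega)

/-- the correlation bound -/
lemma corr (hW : StmtWeil) (hp : p ≠ 2) (N J : ℕ) (hN : N < p) (I : Finset ℕ) (hI : I ⊆ range N)
    (hne : I.Nonempty) (hc : I.card ≤ 8 * J) :
    |∑ a ∈ range (p - N), ∏ n ∈ I, ea p a n| ≤ 160 * J * Real.sqrt p + N := by
  classical
  have hp0 : NeZero p := ⟨(Fact.out : p.Prime).ne_zero⟩
  set χ : ℕ → ℕ → ℝ := fun a n => ((quadraticChar (ZMod p) ((a + n + 1 : ℕ) : ZMod p) : ℤ) : ℝ)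
    with hχ
  have h1 : ∑ a ∈ range (p - N), ∏ n ∈ I, ea p a n = ∑ a ∈ range (p - N), ∏ n ∈ I, χ a n := by
    refine Finset.sum_congr rfl (fun a ha => Finset.prod_congr rfl (fun n hn => ?_))
    have h2 := Finset.mem_range.1 ha
    have h3 := Finset.mem_range.1 (hI hn)
    exact ea_eq p a n (by omega)
  have h2 : ∑ a ∈ range (p - N), ∏ n ∈ I, χ a n + ∑ a ∈ Ico (p - N) p, ∏ n ∈ I, χ a n =
      ∑ a ∈ range p, ∏ n ∈ I, χ a n := Finset.sum_range_add_sum_Ico _ (by omega)
  have h3 : |∑ a ∈ Ico (p - N) p, ∏ n ∈ I, χ a n| ≤ N := by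
    refine (Finset.abs_sum_le_sum_abs _ _).trans ?_
    have : ∀ a ∈ Ico (p - N) p, |∏ n ∈ I, χ a n| ≤ 1 := by
      intro a _
      rw [Finset.abs_prod]
      exact Finset.prod_le_one (fun n _ => abs_nonneg _) (fun n _ => abs_chi_le p _)
    refine (Finset.sum_le_sum this).trans ?_
    rw [Finset.sum_const, Nat.card_Ico, nsmul_eq_mul, mul_one]
    have : p - (p - N) = N := by omega
    rw [this]
  have h4 : |∑ a ∈ range p, ∏ n ∈ I, χ a n| ≤ 160 * J * Real.sqrt p := by
    set I' : Finset (ZMod p) := I.image (fun n : ℕ => ((n + 1 : ℕ) : ZMod p)) with hI'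
    have hinj : Set.InjOn (fun n : ℕ => ((n + 1 : ℕ) : ZMod p)) (I : Set ℕ) := by
      intro x hx y hy hxy
      have hx' := Finset.mem_range.1 (hI hx)
      have hy' := Finset.mem_range.1 (hI hy)
      have := congrArg ZMod.val hxy
      simp only at this
      rw [ZMod.val_natCast, ZMod.val_natCast, Nat.mod_eq_of_lt (by omega),
        Nat.mod_eq_of_lt (by omega)] at this
      omega
    have hcard : I'.card = I.card := Finset.card_image_of_injOn hinj
    have e1 : ∑ a ∈ range p, ∏ n ∈ I, χ a n =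
        ∑ x : ZMod p, ∏ i ∈ I', ((quadraticChar (ZMod p) (x + i) : ℤ) : ℝ) := by
      have h5 := sum_range_zmod p (fun x => ∏ i ∈ I', quadraticChar (ZMod p) (x + i))
      have h6 : ((∑ n ∈ range p, ∏ i ∈ I', quadraticChar (ZMod p) ((n : ZMod p) + i) : ℤ) : ℝ) =
          ((∑ x : ZMod p, ∏ i ∈ I', quadraticChar (ZMod p) (x + i) : ℤ) : ℝ) := by
        exact_mod_cast h5
      push_cast at h6
      rw [← h6]
      refine Finset.sum_congr rfl (fun a _ => ?_)
      rw [hI', Finset.prod_image hinj]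
      refine Finset.prod_congr rfl (fun n _ => ?_)
      simp only [hχ]
      congr 3
      push_cast
      ring
    rw [e1]
    refine (hW p hp I' (hne.image _)).trans ?_
    rw [hcard]
    have : (I.card : ℝ) ≤ 8 * J := by exact_mod_cast hc
    have h7 := Real.sqrt_nonneg (p : ℝ)
    nlinarith
  rw [h1]
  have h5 : ∑ a ∈ range (p - N), ∏ n ∈ I, χ a n =
      ∑ a ∈ range p, ∏ n ∈ I, χ a n - ∑ a ∈ Ico (p - N) p, ∏ n ∈ I, χ a n := by linarith
  rw [h5]
  exact (abs_sub _ _).trans (add_le_add h4 h3)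

/-- product of the `ℓ¹` norms -/
lemma prodA (J : ℕ) : ∏ k ∈ range J, ((1024 * 2 ^ (10 * k) : ℝ) ^ 4) = 1024 ^ (2 * J * (J + 1)) := by
  induction J with
  | zero => simp
  | succ J ih =>
    rw [Finset.prod_range_succ, ih]
    have : (2 : ℝ) ^ (10 * J) = 1024 ^ J := by
      rw [pow_mul]; norm_num
    rw [this]
    rw [show (1024 : ℝ) * 1024 ^ J = 1024 ^ (J + 1) by rw [pow_succ]; ring, ← pow_mul, ← pow_add]
    congr 1
    ring

lemma one_sub_Rf_nonneg (n u : ℕ) (e : ℕ → ℝ) : 0 ≤ 1 - Rf n u e / 1024 := by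
  have : Rf n u e ≤ 1 := by
    unfold Rf
    nlinarith [sq_nonneg (1 - yf n u e / cf n)]
  linarith

/-- the sum over the clean starting points -/
lemma sum_clean (hW : StmtWeil) (hM : StmtMoments) (hD : StmtDisj) (hp : p ≠ 2) (J : ℕ)
    (hN : 1024 ^ J < p) (t : ℕ) (ht : t < 1024 ^ J) :
    ∑ a ∈ range (p - 1024 ^ J), ∏ k ∈ range J, (1 - Rf (10 * k) (uk k t) (ea p a) / 1024) ≤
      p * kp ^ J + 1024 ^ (2 * J * (J + 1)) * (160 * J * Real.sqrt p + ((1024 ^ J : ℕ) : ℝ)) := by
  set N := 1024 ^ J with hNdef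
  set V : ℕ → Finset ℕ := fun k => Ico (uk k t) (uk k t + 512 * 2 ^ (10 * k)) with hV
  have hVN : ∀ k ∈ range J, V k ⊆ range N := by
    intro k hk
    have := hD.2 J t k (Finset.mem_range.1 hk) ht
    simp only [hV, two_pow_ten]
    exact this
  have hle : ∀ k ∈ range J, uk k t + 512 * 2 ^ (10 * k) ≤ N := by
    intro k hk
    have h1 := hVN k hk
    have h2 : uk k t + 512 * 2 ^ (10 * k) - 1 ∈ V k := by
      rw [hV, Finset.mem_Ico]
      have : 0 < 2 ^ (10 * k) := by positivity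
      omega
    have h3 := Finset.mem_range.1 (h1 h2)
    have : 0 < 2 ^ (10 * k) := by positivity
    omega
  have hrep : ∀ k ∈ range J, Rep (V k) 8 ((1024 * 2 ^ (10 * k)) ^ 4)
      (fun e => 1 - Rf (10 * k) (uk k t) e / 1024) := fun k hk => (hM N (10 * k) (uk k t)
        (hle k hk)).1
  have hdis : ∀ i ∈ range J, ∀ j ∈ range J, i ≠ j → Disjoint (V i) (V j) := by
    intro i _ j _ hij
    simp only [hV, two_pow_ten]
    rcases lt_or_gt_of_ne hij with h | h
    · exact hD.1 t i j h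
    · exact (hD.1 t j i h).symm
  have hF := rep_prod (range J) V (fun _ => 8) (fun k => (1024 * 2 ^ (10 * k)) ^ 4)
    (fun k e => 1 - Rf (10 * k) (uk k t) e / 1024) hrep
  rw [Finset.sum_const, Finset.card_range, smul_eq_mul, mul_comm J 8, prodA] at hF
  have hEx := Ex_prod_indep (N := N) (range J) V (fun _ => 8)
    (fun k => (1024 * 2 ^ (10 * k)) ^ 4) (fun k e => 1 - Rf (10 * k) (uk k t) e / 1024) hrep hVN hdis
  have hExle : Ex N (fun e => ∏ k ∈ range J, (1 - Rf (10 * k) (uk k t) e / 1024)) ≤ kp ^ J := by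
    rw [hEx]
    have h1 : ∀ k ∈ range J, Ex N (fun e => 1 - Rf (10 * k) (uk k t) e / 1024) ≤ kp := by
      intro k hk
      have h2 := (hM N (10 * k) (uk k t) (hle k hk)).2
      have h3 : Ex N (fun e => 1 - Rf (10 * k) (uk k t) e / 1024) =
          1 - (1 / 1024) * Ex N (Rf (10 * k) (uk k t)) := by
        rw [← Ex_smul, Ex_sub (f := fun _ => 1) (g := fun e => Rf (10 * k) (uk k t) e / 1024),
          Ex_const]
        congr 2
        funext e
        ring
      rw [h3]
      unfold kp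
      linarith
    have h4 : ∀ k ∈ range J, 0 ≤ Ex N (fun e => 1 - Rf (10 * k) (uk k t) e / 1024) :=
      fun k _ => Ex_nonneg (fun e _ => one_sub_Rf_nonneg _ _ _)
    refine (Finset.prod_le_prod h4 h1).trans ?_
    rw [Finset.prod_const, Finset.card_range]
  have hw0 : (0 : ℝ) ≤ 160 * J * Real.sqrt p + ((N : ℕ) : ℝ) := by positivity
  have hcmp := compare (N := N) (d := 8 * J) (w := 160 * J * Real.sqrt p + ((N : ℕ) : ℝ))
    (range (p - N)) (ea p) (fun a _ => ea_sign p a)
    (fun I hI hne hc => corr p hW hp N J hN I hI hne hc) hw0 hF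
    (Finset.biUnion_subset.2 hVN)
  have h5 := (abs_le.1 hcmp).2
  have h6 : ((range (p - N)).card : ℝ) * Ex N (fun e => ∏ k ∈ range J,
      (1 - Rf (10 * k) (uk k t) e / 1024)) ≤ p * kp ^ J := by
    rw [Finset.card_range]
    have hk := pow_pos kp_pos J
    have h7 : ((p - N : ℕ) : ℝ) ≤ p := by exact_mod_cast Nat.sub_le _ _
    have h8 : (0 : ℝ) ≤ ((p - N : ℕ) : ℝ) := Nat.cast_nonneg _
    exact (mul_le_mul_of_nonneg_left hExle h8).trans (mul_le_mul_of_nonneg_right h7 hk.le)
  linarith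

lemma core (hW : StmtWeil) (hM : StmtMoments) (hT : StmtTree) (hD : StmtDisj) (hp : p ≠ 2) (J : ℕ)
    (hN : 1024 ^ J < p) (h : ℤ) (l : ℝ) (hl : 0 < l) :
    (level p h : ℝ) ≤ 1024 ^ J + l * p + (1 / (4 * l)) *
      (p * kp ^ J + 1024 ^ (2 * J * (J + 1)) * (160 * J * Real.sqrt p + 1024 ^ J)) := by
  classical
  set N := 1024 ^ J with hNdef
  have hN0 : 0 < N := by positivity
  set c : ℕ → ℝ := fun a => (((range N).filter (fun t => Psi p 0 (a + t) = h)).card : ℝ) with hc
  -- double counting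
  have h1 : ∑ a ∈ range p, c a = N * (level p h : ℝ) := by
    have e1 : ∀ a, c a = ∑ t ∈ range N, (if Psi p 0 (a + t) = h then (1 : ℝ) else 0) := by
      intro a
      simp only [hc]
      rw [Finset.card_filter]
      push_cast
      rfl
    simp_rw [e1]
    rw [Finset.sum_comm]
    have e2 : ∀ t ∈ range N, ∑ a ∈ range p, (if Psi p 0 (a + t) = h then (1 : ℝ) else 0) =
        (level p h : ℝ) := by
      intro t _
      have := card_shift_periodic p (fun n => Psi p 0 n = h) (fun n => by rw [Psi_period p hp]) t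
      unfold level
      rw [← this, Finset.card_filter]
      push_cast
      refine Finset.sum_congr rfl (fun a _ => ?_)
      rw [add_comm]
    rw [Finset.sum_congr rfl e2, Finset.sum_const, Finset.card_range, nsmul_eq_mul]
  have h2 : ∑ a ∈ range (p - N), c a + ∑ a ∈ Ico (p - N) p, c a = ∑ a ∈ range p, c a :=
    Finset.sum_range_add_sum_Ico _ (by omega)
  have hcN : ∀ a, c a ≤ N := by
    intro a
    simp only [hc]
    have := Finset.card_filter_le (range N) (fun t => Psi p 0 (a + t) = h)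
    rw [Finset.card_range] at this
    exact_mod_cast this
  have h3 : ∑ a ∈ Ico (p - N) p, c a ≤ N * N := by
    refine (Finset.sum_le_sum (fun a _ => hcN a)).trans ?_
    rw [Finset.sum_const, Nat.card_Ico, nsmul_eq_mul]
    have : p - (p - N) = N := by omega
    rw [this]
  have h4 : ∀ a ∈ range (p - N), c a ≤ l * N + (1 / (4 * l)) *
      ∑ t ∈ range N, ∏ k ∈ range J, (1 - Rf (10 * k) (uk k t) (ea p a) / 1024) := by
    intro a ha
    have ha' := Finset.mem_range.1 ha
    have h5 := hT J (ea p a) (fun m => (Psi p 0 (a + m) : ℝ)) (h : ℝ) (ea_sign p a) ?_ l hl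
    · have e : (range (1024 ^ J)).filter (fun t => ((Psi p 0 (a + t) : ℤ) : ℝ) = (h : ℝ)) =
          (range N).filter (fun t => Psi p 0 (a + t) = h) := by
        apply Finset.filter_congr
        intro t _
        exact Int.cast_inj
      rw [e] at h5
      have e2 : ((1024 : ℝ) ^ J) = (N : ℝ) := by rw [hNdef]; push_cast; rfl
      rw [e2] at h5
      exact h5
    · intro m hm
      have h6 := Psi_add p 0 (a + m) 1
      rw [Finset.sum_range_one] at h6
      rw [ea_eq p a m (by omega)]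
      have e3 : (0 : ZMod p) + ((a + m + 1 : ℕ) : ZMod p) + ((0 : ℕ) : ZMod p) =
          ((a + m + 1 : ℕ) : ZMod p) := by simp
      rw [e3] at h6
      show ((Psi p 0 (a + (m + 1)) : ℤ) : ℝ) - ((Psi p 0 (a + m) : ℤ) : ℝ) = _
      rw [← h6]
      push_cast
      rw [add_assoc]
  have h5 : ∑ a ∈ range (p - N), c a ≤ l * N * p + (1 / (4 * l)) *
      (N * (p * kp ^ J + 1024 ^ (2 * J * (J + 1)) *
        (160 * J * Real.sqrt p + ((1024 ^ J : ℕ) : ℝ)))) := by
    refine (Finset.sum_le_sum h4).trans ?_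
    rw [Finset.sum_add_distrib, Finset.sum_const, Finset.card_range, nsmul_eq_mul,
      ← Finset.mul_sum, Finset.sum_comm]
    have h6 : ∑ t ∈ range N, ∑ a ∈ range (p - N), ∏ k ∈ range J,
        (1 - Rf (10 * k) (uk k t) (ea p a) / 1024) ≤ N * (p * kp ^ J + 1024 ^ (2 * J * (J + 1)) *
        (160 * J * Real.sqrt p + ((1024 ^ J : ℕ) : ℝ))) := by
      refine (Finset.sum_le_sum (fun t ht => sum_clean p hW hM hD hp J hN t
        (Finset.mem_range.1 ht))).trans ?_
      rw [Finset.sum_const, Finset.card_range, nsmul_eq_mul]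
    have h7 : ((p - N : ℕ) : ℝ) ≤ p := by exact_mod_cast Nat.sub_le _ _
    have h8 : ((p - N : ℕ) : ℝ) * (l * N) ≤ l * N * p := by
      have : 0 ≤ l * N := by positivity
      nlinarith
    have h9 : (0 : ℝ) ≤ 1 / (4 * l) := by positivity
    exact add_le_add h8 (mul_le_mul_of_nonneg_left h6 h9)
  have h6 : (N : ℝ) * (level p h : ℝ) ≤ N * (N + l * p + (1 / (4 * l)) *
      (p * kp ^ J + 1024 ^ (2 * J * (J + 1)) * (160 * J * Real.sqrt p + ((1024 ^ J : ℕ) : ℝ)))) := by
    rw [← h1, ← h2]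
    have : (N : ℝ) * (N + l * p + (1 / (4 * l)) *
      (p * kp ^ J + 1024 ^ (2 * J * (J + 1)) * (160 * J * Real.sqrt p + ((1024 ^ J : ℕ) : ℝ)))) =
      (l * N * p + (1 / (4 * l)) *
      (N * (p * kp ^ J + 1024 ^ (2 * J * (J + 1)) *
        (160 * J * Real.sqrt p + ((1024 ^ J : ℕ) : ℝ))))) + N * N := by ring
    rw [this]
    exact add_le_add h5 h3
  have hN0' : (0 : ℝ) < N := by exact_mod_cast hN0
  have h7 := le_of_mul_le_mul_left h6 hN0'
  have e3 : ((1024 ^ J : ℕ) : ℝ) = (1024 : ℝ) ^ J := by push_cast; rfl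
  rw [e3] at h7
  exact h7

end

end Pool.Agent.LVL
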