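import Mathlib

/-!
# Level sets of the Legendre walk: definitions and statements of the modules

Architect: helper60.  Target: `#{t < p : Psi(a,t) = h} ≤ C p exp (-c sqrt (log p))`.
-/

open Finset Polynomial

namespace Pool.Agent.LVL

/-! ## Part W : the Weil bound by Stepanov's method -/

/-- the Weil bound for products of distinct shifts -/
def StmtWeil : Prop :=
  ∀ (p : ℕ) [Fact p.Prime], p ≠ 2 → ∀ I : Finset (ZMod p), I.Nonempty →
    |∑ a : ZMod p, ∏ i ∈ I, ((quadraticChar (ZMod p) (a + i) : ℤ) : ℝ)|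
      ≤ 20 * (I.card : ℝ) * Real.sqrt p

/-- non-vanishing lemma -/
def StmtNonvanish : Prop :=
  ∀ (p : ℕ) [Fact p.Prime] (f : (ZMod p)[X]) (c d J : ℕ), p = 2 * c + 1 → Squarefree f →
    1 ≤ f.natDegree → f.eval 0 ≠ 0 → 2 * d + f.natDegree ≤ p →
    ∀ r s : ℕ → (ZMod p)[X], (∀ j, (r j).degree < (d : WithBot ℕ)) →
      (∀ j, (s j).degree < (d : WithBot ℕ)) →
      ∑ j ∈ range J, (r j + s j * f ^ c) * X ^ (p * j) = 0 →
      ∀ j < J, r j = 0 ∧ s j = 0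

/-- the polynomial part of the `k`-th derivative of `f^e * r` (up to `f^(e-k)`) -/
noncomputable def DR {F : Type} [Field F] (f : F[X]) (e : ℕ) : ℕ → F[X] → F[X]
  | 0, r => r
  | k + 1, r => ((e : F[X]) - (k : F[X])) * derivative f * DR f e k r
      + f * derivative (DR f e k r)

/-- facts on `DR` -/
def StmtDeriv : Prop :=
  ∀ (p : ℕ) [Fact p.Prime] (f : (ZMod p)[X]) (e k : ℕ),
    (∀ (r : (ZMod p)[X]) (j : ℕ), k ≤ e →
      (derivative^[k]) (f ^ e * r * X ^ (p * j)) = f ^ (e - k) * DR f e k r * X ^ (p * j)) ∧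
    (∀ (r : (ZMod p)[X]) (d : ℕ), r.degree < (d : WithBot ℕ) →
      (DR f e k r).degree < ((d + k * f.natDegree : ℕ) : WithBot ℕ)) ∧
    (∀ r r' : (ZMod p)[X], DR f e k (r + r') = DR f e k r + DR f e k r') ∧
    (∀ (x : ZMod p) (r : (ZMod p)[X]), DR f e k (x • r) = x • DR f e k r)

/-! ## Part P : functions of signs -/

/-- signs coming from a finite set -/
noncomputable def sg (s : Finset ℕ) (n : ℕ) : ℝ := if n ∈ s then -1 else 1

/-- average of `f` over all sign patterns on the coordinates `0, …, N-1` -/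
noncomputable def Ex (N : ℕ) (f : (ℕ → ℝ) → ℝ) : ℝ :=
  (∑ s ∈ (range N).powerset, f (sg s)) / 2 ^ N

/-- `f` is, on signs, a polynomial in the coordinates of `V`, of degree `≤ d` and `ℓ¹` norm `≤ A` -/
def Rep (V : Finset ℕ) (d : ℕ) (A : ℝ) (f : (ℕ → ℝ) → ℝ) : Prop :=
  ∃ (ι : Type) (_ : Fintype ι) (c : ι → ℝ) (I : ι → Finset ℕ),
    (∀ i, I i ⊆ V ∧ (I i).card ≤ d) ∧ ∑ i, |c i| ≤ A ∧
    ∀ e : ℕ → ℝ, (∀ n, e n = 1 ∨ e n = -1) → f e = ∑ i, c i * ∏ n ∈ I i, e n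

/-- sum of the signs over `[u, v)` -/
noncomputable def bs (u v : ℕ) (e : ℕ → ℝ) : ℝ := ∑ n ∈ Ico u v, e n

/-- polynomial majorant of the fourth power of the prefix sums of the block `[u, u + 2^n)` -/
noncomputable def Uf : ℕ → ℕ → (ℕ → ℝ) → ℝ
  | 0, _, _ => 1
  | n + 1, u, e => Uf n u e + 2 * Uf n (u + 2 ^ n) e + 120 * (bs u (u + 2 ^ n) e) ^ 4

/-- the test polynomial of the half window `[u, u + 512 * 2^n)` -/
noncomputable def yf (n u : ℕ) (e : ℕ → ℝ) : ℝ :=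
  (bs (u + 2 ^ n) (u + 511 * 2 ^ n) e) ^ 4 - 128 * Uf n u e - 8 * Uf n (u + 511 * 2 ^ n) e

noncomputable def cf (n : ℕ) : ℝ := 216 * (510 * 2 ^ n) ^ 2

noncomputable def Rf (n u : ℕ) (e : ℕ → ℝ) : ℝ := 1 - (1 - yf n u e / cf n) ^ 2

/-- moments of the test polynomial -/
def StmtMoments : Prop :=
  ∀ N n u : ℕ, u + 512 * 2 ^ n ≤ N →
    Rep (Ico u (u + 512 * 2 ^ n)) 8 ((1024 * 2 ^ n) ^ 4) (fun e => 1 - Rf n u e / 1024) ∧
    1 / 432 ≤ Ex N (Rf n u)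

/-- the deterministic property of the test polynomial -/
def StmtTest : Prop :=
  ∀ (n u : ℕ) (e : ℕ → ℝ) (S : ℕ → ℝ), (∀ m, e m = 1 ∨ e m = -1) →
    (∀ m, u ≤ m → m < u + 512 * 2 ^ n → S (m + 1) - S m = e m) →
    Rf n u e ≤ 1 ∧
    (0 < Rf n u e → ∀ h : ℝ, (∀ m, u ≤ m → m < u + 2 ^ n → S m ≠ h) ∨
      (∀ m, u + 511 * 2 ^ n ≤ m → m < u + 512 * 2 ^ n → S m ≠ h))

end Pool.Agent.LVL
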