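import Pool.Agent.LVL.Stmts2

/-!
# Level sets of the Legendre walk: disjointness of the half windows
-/

open Finset

namespace Pool.Agent.LVL

private lemma Disj_uk_bounds (k t : ℕ) :
    (t / 1024 ^ (k + 1)) * 1024 ^ (k + 1) ≤ uk k t ∧
      uk k t + 512 * 1024 ^ k ≤ (t / 1024 ^ (k + 1) + 1) * 1024 ^ (k + 1) := by
  have h1 : (t / 1024 ^ (k + 1) + 1) * 1024 ^ (k + 1) =
      (t / 1024 ^ (k + 1)) * 1024 ^ (k + 1) + 1024 * 1024 ^ k := by
    rw [Nat.add_mul, one_mul, pow_succ]
    ring
  rw [h1]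
  unfold uk
  generalize (t / 1024 ^ (k + 1)) * 1024 ^ (k + 1) = m
  generalize 1024 ^ k = a
  split_ifs <;> constructor <;> omega

private lemma Disj_child (t a c : ℕ) (hc : 0 < c) :
    (t / (a * c)) * (a * c) ≤ (t / a) * a ∧ (t / a + 1) * a ≤ (t / (a * c) + 1) * (a * c) := by
  rw [← Nat.div_div_eq_div_mul]
  generalize t / a = u
  have h1 : u / c * c ≤ u := Nat.div_mul_le_self u c
  have h2 : u + 1 ≤ (u / c + 1) * c := by
    have h3 := Nat.div_add_mod u c
    have h4 := Nat.mod_lt u hc
    have h5 : (u / c + 1) * c = c * (u / c) + c := by ring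
    omega
  constructor
  · calc u / c * (a * c) = (u / c * c) * a := by ring
      _ ≤ u * a := Nat.mul_le_mul_right a h1
  · calc (u + 1) * a ≤ ((u / c + 1) * c) * a := Nat.mul_le_mul_right a h2
      _ = (u / c + 1) * (a * c) := by ring

private lemma Disj_child' (t k k' : ℕ) (h : k ≤ k') :
    (t / 1024 ^ k') * 1024 ^ k' ≤ (t / 1024 ^ k) * 1024 ^ k ∧
      (t / 1024 ^ k + 1) * 1024 ^ k ≤ (t / 1024 ^ k' + 1) * 1024 ^ k' := by
  obtain ⟨d, rfl⟩ := Nat.exists_eq_add_of_le h
  have := Disj_child t (1024 ^ k) (1024 ^ d) (by positivity)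
  rw [← pow_add] at this
  exact this

/-- the half window avoids the child containing `t` -/
private lemma Disj_avoid (k t : ℕ) :
    (t / 1024 ^ k + 1) * 1024 ^ k ≤ uk k t ∨
      uk k t + 512 * 1024 ^ k ≤ (t / 1024 ^ k) * 1024 ^ k := by
  have h1 : t / 1024 ^ (k + 1) = (t / 1024 ^ k) / 1024 := by
    rw [Nat.div_div_eq_div_mul, pow_succ]
  unfold uk
  rw [h1, pow_succ]
  generalize 1024 ^ k = a
  generalize t / a = u
  have h2 : u = 1024 * (u / 1024) + u % 1024 := (Nat.div_add_mod u 1024).symm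
  generalize u / 1024 = q at *
  generalize hr : u % 1024 = r at *
  have hr' : r < 1024 := by
    rw [← hr]
    exact Nat.mod_lt _ (by norm_num)
  subst h2
  have h3 : (1024 * q + r) * a = 1024 * (q * a) + r * a := by ring
  have h4 : (1024 * q + r + 1) * a = 1024 * (q * a) + r * a + a := by ring
  have h5 : q * (a * 1024) = 1024 * (q * a) := by ring
  rw [h3, h4, h5]
  split_ifs with h6
  · left
    have h7 : (r + 1) * a ≤ 512 * a := Nat.mul_le_mul_right a (by omega)
    have h8 : (r + 1) * a = r * a + a := by ring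
    omega
  · right
    have h7 : 512 * a ≤ r * a := Nat.mul_le_mul_right a (by omega)
    omega

theorem disj : StmtDisj := by
  constructor
  · intro t k k' hk
    rw [Finset.disjoint_left]
    intro x hx hx'
    rw [Finset.mem_Ico] at hx hx'
    have h1 := Disj_uk_bounds k t
    have h2 := Disj_child' t (k + 1) k' hk
    have h3 := Disj_avoid k' t
    omega
  · intro J t k hk ht x hx
    rw [Finset.mem_Ico] at hx
    rw [Finset.mem_range]
    have h1 := Disj_uk_bounds k t
    have h2 := Disj_child' t (k + 1) J hk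
    rw [Nat.div_eq_of_lt ht] at h2
    omega

end Pool.Agent.LVL
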