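import Pool.Agent.LVL.Core

/-!
# Level sets of the Legendre walk: the final bound
-/

open Finset

namespace Pool.Agent.LVL

open Pool.Agent.Lib_helper96.Legendre

lemma log_1024_le : Real.log 1024 ≤ 7 := by
  have h : (1024 : ℝ) = 2 ^ 10 := by norm_num
  rw [h, Real.log_pow]
  have := Real.log_two_lt_d9
  norm_num
  linarith

lemma kp_upper : kp ≤ Real.exp (-(1 / 442368)) := by
  have := Real.add_one_le_exp (-(1 / 442368 : ℝ))
  unfold kp
  norm_num at this ⊢
  linarith

lemma kp_lower : Real.exp (-(1 / 1000)) ≤ kp := by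
  have h1 : Real.exp (1 / 1000) ≥ 1 + 1 / 1000 := by
    have := Real.add_one_le_exp (1 / 1000 : ℝ)
    linarith
  rw [Real.exp_neg]
  have h2 : (0 : ℝ) < 1 + 1 / 1000 := by norm_num
  refine (inv_anti₀ h2 h1).trans ?_
  unfold kp
  norm_num

/-- the bound for large `p` -/
lemma level_bound_large (hW : StmtWeil) (hM : StmtMoments) (hT : StmtTree) (hD : StmtDisj)
    (p : ℕ) [Fact p.Prime] (hp : p ≠ 2) (hL : 10000 ≤ Real.log p) (h : ℤ) :
    (level p h : ℝ) ≤ 4 * p * Real.exp (-(1 / 10 ^ 8 * Real.sqrt (Real.log p))) := by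
  have hp0 : (0 : ℝ) < p := by exact_mod_cast (Fact.out : p.Prime).pos
  set L := Real.log p with hLdef
  have hL0 : 0 < L := by linarith
  set s := Real.sqrt L with hs
  have hs2 : s * s = L := Real.mul_self_sqrt hL0.le
  have hs0 : 0 ≤ s := Real.sqrt_nonneg _
  have hs100 : 100 ≤ s := by
    rw [hs]
    apply Real.le_sqrt_of_sq_le
    norm_num
    exact hL
  have hsL : s ≤ L / 100 := by nlinarith
  set J := ⌊s / 20⌋₊ with hJ
  have hJle : (J : ℝ) ≤ s / 20 := Nat.floor_le (by positivity)
  have hJge : s / 20 - 1 < J := Nat.sub_one_lt_floor _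
  have hJge' : s / 40 ≤ J := by linarith
  have hJ0 : (0 : ℝ) ≤ J := Nat.cast_nonneg _
  have hpexp : (p : ℝ) = Real.exp L := (Real.exp_log hp0).symm
  have hlog := log_1024_le
  -- powers of 1024
  have h1024 : ∀ m : ℕ, (1024 : ℝ) ^ m ≤ Real.exp (7 * m) := by
    intro m
    have : (1024 : ℝ) ≤ Real.exp 7 := by
      rw [← Real.exp_log (show (0 : ℝ) < 1024 by norm_num)]
      exact Real.exp_le_exp.2 hlog
    calc (1024 : ℝ) ^ m ≤ (Real.exp 7) ^ m := pow_le_pow_left₀ (by norm_num) this m
      _ = Real.exp (7 * m) := by rw [← Real.exp_nat_mul]; ring_nf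
  have hNle : (1024 : ℝ) ^ J ≤ Real.exp (L / 100) := by
    refine (h1024 J).trans (Real.exp_le_exp.2 ?_)
    linarith
  have hNlt : 1024 ^ J < p := by
    have h1 : ((1024 ^ J : ℕ) : ℝ) < p := by
      push_cast
      refine hNle.trans_lt ?_
      rw [hpexp]
      exact Real.exp_lt_exp.2 (by linarith)
    exact_mod_cast h1
  have hAle : (1024 : ℝ) ^ (2 * J * (J + 1)) ≤ Real.exp (L / 20) := by
    refine (h1024 _).trans (Real.exp_le_exp.2 ?_)
    push_cast
    have h1 : (J : ℝ) * J ≤ L / 400 := by nlinarith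
    have h2 : (J : ℝ) ≤ L / 2000 := by linarith
    nlinarith
  -- choose l
  set l := Real.exp (-(J / (2 * 442368))) with hl
  have hl0 : 0 < l := Real.exp_pos _
  have hmain := core p hW hM hT hD hp J hNlt h l hl0
  have hkJ : kp ^ J ≤ l ^ 2 := by
    have h1 : kp ^ J ≤ (Real.exp (-(1 / 442368))) ^ J := pow_le_pow_left₀ kp_pos.le kp_upper J
    refine h1.trans ?_
    rw [hl, ← Real.exp_nat_mul, ← Real.exp_nat_mul]
    apply Real.exp_le_exp.2
    push_cast
    linarith
  have hlinv : 1 / (4 * l) ≤ Real.exp (L / 100) := by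
    have h1 : 1 / (4 * l) ≤ 1 / l := by
      apply one_div_le_one_div_of_le hl0
      linarith
    refine h1.trans ?_
    rw [hl, one_div, ← Real.exp_neg, neg_neg]
    apply Real.exp_le_exp.2
    linarith
  have hsqrt : Real.sqrt p = Real.exp (L / 2) := by
    rw [hpexp, Real.sqrt_eq_iff_mul_self_eq (Real.exp_pos _).le (Real.exp_pos _).le,
      ← Real.exp_add]
    ring_nf
  have hw : 160 * J * Real.sqrt p + 1024 ^ J ≤ Real.exp (L / 2 + L / 50) := by
    rw [hsqrt, Real.exp_add]
    have h1 : (J : ℝ) ≤ L := by linarith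
    have h2 : 160 * (J : ℝ) + 1 ≤ Real.exp (L / 50) := by
      have h3 := Real.quadratic_le_exp_of_nonneg (x := L / 50) (by positivity)
      nlinarith
    have h3 : (1024 : ℝ) ^ J ≤ Real.exp (L / 2) :=
      hNle.trans (Real.exp_le_exp.2 (by linarith))
    have h4 := Real.exp_pos (L / 2)
    nlinarith
  -- the target exponential
  set T := Real.exp (-(1 / 10 ^ 8 * s)) with hTdef
  have hT0 : 0 < T := Real.exp_pos _
  have hlT : l ≤ T := by
    rw [hl, hTdef]
    apply Real.exp_le_exp.2
    norm_num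
    linarith
  have hsmall : Real.exp (-(L / 10)) ≤ T := by
    rw [hTdef]
    apply Real.exp_le_exp.2
    norm_num
    linarith
  -- the terms
  have t1 : (1024 : ℝ) ^ J ≤ p * T := by
    refine hNle.trans ?_
    have h1 : Real.exp (L / 100) ≤ p * Real.exp (-(L / 10)) := by
      rw [hpexp, ← Real.exp_add]
      apply Real.exp_le_exp.2
      linarith
    exact h1.trans (mul_le_mul_of_nonneg_left hsmall hp0.le)
  have t2 : l * p ≤ p * T := by nlinarith
  have t3 : 1 / (4 * l) * (p * kp ^ J) ≤ p * T := by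
    have h1 : 1 / (4 * l) * (p * kp ^ J) ≤ 1 / (4 * l) * (p * l ^ 2) := by
      apply mul_le_mul_of_nonneg_left _ (by positivity)
      exact mul_le_mul_of_nonneg_left hkJ hp0.le
    have h2 : 1 / (4 * l) * (p * l ^ 2) = p * l / 4 := by field_simp
    rw [h2] at h1
    nlinarith
  have t4 : 1 / (4 * l) * (1024 ^ (2 * J * (J + 1)) * (160 * J * Real.sqrt p + 1024 ^ J)) ≤
      p * T := by
    have h0 : (0 : ℝ) ≤ 160 * J * Real.sqrt p + 1024 ^ J := by positivity
    have h1 : (1024 : ℝ) ^ (2 * J * (J + 1)) * (160 * J * Real.sqrt p + 1024 ^ J) ≤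
        Real.exp (L / 20) * Real.exp (L / 2 + L / 50) :=
      mul_le_mul hAle hw h0 (Real.exp_pos _).le
    have h2 : 1 / (4 * l) * (1024 ^ (2 * J * (J + 1)) * (160 * J * Real.sqrt p + 1024 ^ J)) ≤
        Real.exp (L / 100) * (Real.exp (L / 20) * Real.exp (L / 2 + L / 50)) :=
      mul_le_mul hlinv h1 (by positivity) (Real.exp_pos _).le
    refine h2.trans ?_
    have h3 : Real.exp (L / 100) * (Real.exp (L / 20) * Real.exp (L / 2 + L / 50)) ≤
        p * Real.exp (-(L / 10)) := by
      rw [hpexp, ← Real.exp_add, ← Real.exp_add, ← Real.exp_add]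
      apply Real.exp_le_exp.2
      linarith
    exact h3.trans (mul_le_mul_of_nonneg_left hsmall hp0.le)
  have hsplit : (1 / (4 * l)) * (p * kp ^ J + 1024 ^ (2 * J * (J + 1)) *
      (160 * J * Real.sqrt p + 1024 ^ J)) = 1 / (4 * l) * (p * kp ^ J) +
      1 / (4 * l) * (1024 ^ (2 * J * (J + 1)) * (160 * J * Real.sqrt p + 1024 ^ J)) := by ring
  rw [hsplit] at hmain
  calc (level p h : ℝ) ≤ _ := hmain
    _ ≤ p * T + p * T + (p * T + p * T) := by linarith
    _ = 4 * p * T := by ring

lemma level_bound (hW : StmtWeil) (hM : StmtMoments) (hT : StmtTree) (hD : StmtDisj)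
    (p : ℕ) [Fact p.Prime] (hp : p ≠ 2) (h : ℤ) :
    (level p h : ℝ) ≤ 4 * p * Real.exp (-(1 / 10 ^ 8 * Real.sqrt (Real.log p))) := by
  rcases le_total 10000 (Real.log p) with hL | hL
  · exact level_bound_large hW hM hT hD p hp hL h
  · have h1 : (level p h : ℝ) ≤ p := by exact_mod_cast level_le p h
    have hp0 : (0 : ℝ) < p := by exact_mod_cast (Fact.out : p.Prime).pos
    have h2 : Real.sqrt (Real.log p) ≤ 100 := by
      rw [show (100 : ℝ) = Real.sqrt 10000 by
        rw [show (10000 : ℝ) = 100 ^ 2 by norm_num]; exact (Real.sqrt_sq (by norm_num)).symm]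
      exact Real.sqrt_le_sqrt hL
    have h3 : Real.exp (-(1 / 10 ^ 8 * Real.sqrt (Real.log p))) ≥ 1 / 4 := by
      have := Real.add_one_le_exp (-(1 / 10 ^ 8 * Real.sqrt (Real.log p)))
      norm_num at this ⊢
      linarith
    nlinarith

/-- all starting points -/
lemma psi_bound (hW : StmtWeil) (hM : StmtMoments) (hT : StmtTree) (hD : StmtDisj)
    (p : ℕ) [Fact p.Prime] (hp : p ≠ 2) (a : ZMod p) (h : ℤ) :
    (((range p).filter (fun t => Psi p a t = h)).card : ℝ) ≤
      4 * p * Real.exp (-(1 / 10 ^ 8 * Real.sqrt (Real.log p))) := by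
  classical
  have hp0 : p ≠ 0 := (Fact.out : p.Prime).ne_zero
  have : NeZero p := ⟨hp0⟩
  set s := a.val + p - 1 with hs
  have ha : a = ((s + 1 : ℕ) : ZMod p) := by
    have : s + 1 = a.val + p := by omega
    rw [this]; push_cast; rw [ZMod.natCast_zmod_val]; simp
  have hcard : ((range p).filter (fun t => Psi p a t = h)).card = level p (h + Psi p 0 s) := by
    unfold level
    rw [← card_shift_periodic p (fun n => Psi p 0 n = h + Psi p 0 s)
      (fun n => by rw [Psi_period p hp]) (s + 1)]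
    congr 1
    apply Finset.filter_congr
    intro t _
    rw [ha, Psi_base]
    constructor
    · intro h'; linarith
    · intro h'; linarith
  rw [hcard]
  exact level_bound hW hM hT hD p hp _

end Pool.Agent.LVL
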