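import Pool.Agent.LVL.Rep

/-!
# Level sets of the Legendre walk: moments of the test polynomial
-/

open Finset

namespace Pool.Agent.LVL

namespace Mom

lemma Ex_var {N a : ℕ} (ha : a ∈ range N) : Ex N (fun e => e a) = 0 := by
  have h := Ex_walsh N {a} (by simpa using ha)
  simpa using h

lemma Ex_var_mul {N a : ℕ} {V : Finset ℕ} (ha : a ∈ range N) (hV : V ⊆ range N) (haV : a ∉ V)
    (j : ℕ) : Ex N (fun e => e a * (∑ n ∈ V, e n) ^ j) = 0 := by
  have h1 : Rep {a} 1 1 (fun e : ℕ → ℝ => e a) := rep_var (by simp)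
  have h2 := (rep_sum V subset_rfl).pow j
  have h3 := Ex_mul_indep (N := N) h1 h2 (by simpa using haV) (by simpa using ha) hV
  rw [h3, Ex_var ha, zero_mul]

lemma moments_sum {N : ℕ} (V : Finset ℕ) : V ⊆ range N →
    Ex N (fun e => (∑ n ∈ V, e n) ^ 2) = V.card ∧
    Ex N (fun e => (∑ n ∈ V, e n) ^ 4) = 3 * (V.card : ℝ) ^ 2 - 2 * V.card ∧
    Ex N (fun e => (∑ n ∈ V, e n) ^ 6) ≤ 15 * (V.card : ℝ) ^ 3 ∧
    Ex N (fun e => (∑ n ∈ V, e n) ^ 8) ≤ 105 * (V.card : ℝ) ^ 4 := by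
  classical
  induction V using Finset.induction_on with
  | empty =>
    intro _
    simp [Ex_const]
  | insert a V ha ih =>
    intro hV
    have haN : a ∈ range N := hV (Finset.mem_insert_self a V)
    have hVN : V ⊆ range N := (Finset.subset_insert a V).trans hV
    obtain ⟨m2, m4, m6, m8⟩ := ih hVN
    have z := fun j => Ex_var_mul haN hVN ha j
    have hk : (((insert a V).card : ℕ) : ℝ) = V.card + 1 := by
      rw [Finset.card_insert_of_notMem ha]; push_cast; ring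
    have hk0 : (0 : ℝ) ≤ V.card := Nat.cast_nonneg _
    have e2 : Ex N (fun e => (∑ n ∈ insert a V, e n) ^ 2) =
        Ex N (fun e => (∑ n ∈ V, e n) ^ 2 + 1 + 2 * (e a * (∑ n ∈ V, e n) ^ 1)) := by
      refine Ex_congr (fun e he => ?_)
      rw [Finset.sum_insert ha]
      rcases he a with h | h <;> rw [h] <;> ring
    have e4 : Ex N (fun e => (∑ n ∈ insert a V, e n) ^ 4) =
        Ex N (fun e => (∑ n ∈ V, e n) ^ 4 + 6 * (∑ n ∈ V, e n) ^ 2 + 1
          + 4 * (e a * (∑ n ∈ V, e n) ^ 3) + 4 * (e a * (∑ n ∈ V, e n) ^ 1)) := by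
      refine Ex_congr (fun e he => ?_)
      rw [Finset.sum_insert ha]
      rcases he a with h | h <;> rw [h] <;> ring
    have e6 : Ex N (fun e => (∑ n ∈ insert a V, e n) ^ 6) =
        Ex N (fun e => (∑ n ∈ V, e n) ^ 6 + 15 * (∑ n ∈ V, e n) ^ 4
          + 15 * (∑ n ∈ V, e n) ^ 2 + 1 + 6 * (e a * (∑ n ∈ V, e n) ^ 5)
          + 20 * (e a * (∑ n ∈ V, e n) ^ 3) + 6 * (e a * (∑ n ∈ V, e n) ^ 1)) := by
      refine Ex_congr (fun e he => ?_)
      rw [Finset.sum_insert ha]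
      rcases he a with h | h <;> rw [h] <;> ring
    have e8 : Ex N (fun e => (∑ n ∈ insert a V, e n) ^ 8) =
        Ex N (fun e => (∑ n ∈ V, e n) ^ 8 + 28 * (∑ n ∈ V, e n) ^ 6
          + 70 * (∑ n ∈ V, e n) ^ 4 + 28 * (∑ n ∈ V, e n) ^ 2 + 1
          + 8 * (e a * (∑ n ∈ V, e n) ^ 7) + 56 * (e a * (∑ n ∈ V, e n) ^ 5)
          + 56 * (e a * (∑ n ∈ V, e n) ^ 3) + 8 * (e a * (∑ n ∈ V, e n) ^ 1)) := by
      refine Ex_congr (fun e he => ?_)
      rw [Finset.sum_insert ha]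
      rcases he a with h | h <;> rw [h] <;> ring
    simp only [Ex_add, Ex_smul, Ex_const, z, m2] at e2
    simp only [Ex_add, Ex_smul, Ex_const, z, m2, m4] at e4
    simp only [Ex_add, Ex_smul, Ex_const, z, m2, m4] at e6
    simp only [Ex_add, Ex_smul, Ex_const, z, m2, m4] at e8
    rw [hk]
    refine ⟨by rw [e2]; ring, by rw [e4]; ring, ?_, ?_⟩
    · rw [e6]
      nlinarith
    · rw [e8]
      have : (0 : ℝ) ≤ (V.card : ℝ) ^ 3 := by positivity
      nlinarith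

lemma bs_four {N u v : ℕ} (h : Ico u v ⊆ range N) :
    Ex N (fun e => bs u v e ^ 4) = 3 * ((v - u : ℕ) : ℝ) ^ 2 - 2 * ((v - u : ℕ) : ℝ) := by
  have := (moments_sum (Ico u v) h).2.1
  rwa [Nat.card_Ico] at this

lemma bs_eight {N u v : ℕ} (h : Ico u v ⊆ range N) :
    Ex N (fun e => bs u v e ^ 8) ≤ 105 * ((v - u : ℕ) : ℝ) ^ 4 := by
  have := (moments_sum (Ico u v) h).2.2.2
  rwa [Nat.card_Ico] at this

lemma Ico_sub {N u v : ℕ} (h : v ≤ N) : Ico u v ⊆ range N := by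
  intro x hx
  rw [mem_Ico] at hx
  rw [mem_range]
  omega

lemma Uf_nonneg (n : ℕ) : ∀ (u : ℕ) (e : ℕ → ℝ), 0 ≤ Uf n u e := by
  induction n with
  | zero => intro u e; simp [Uf]
  | succ n ih =>
    intro u e
    have h1 := ih u e
    have h2 := ih (u + 2 ^ n) e
    have h3 : 0 ≤ bs u (u + 2 ^ n) e ^ 4 := by positivity
    simp only [Uf]
    linarith

lemma rep_Uf (n : ℕ) : ∀ u : ℕ, Rep (Ico u (u + 2 ^ n)) 4 (120 * 16 ^ n) (Uf n u) := by
  induction n with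
  | zero =>
    intro u
    refine ((rep_const (Ico u (u + 2 ^ 0)) 4 1).congr (fun e _ => by simp [Uf])).mono
      subset_rfl le_rfl (by norm_num)
  | succ n ih =>
    intro u
    have hp : 2 ^ (n + 1) = 2 ^ n + 2 ^ n := by rw [pow_succ]; ring
    have hpos : 0 < 2 ^ n := Nat.two_pow_pos n
    have s1 : Ico u (u + 2 ^ n) ⊆ Ico u (u + 2 ^ (n + 1)) :=
      Ico_subset_Ico le_rfl (by omega)
    have s2 : Ico (u + 2 ^ n) (u + 2 ^ n + 2 ^ n) ⊆ Ico u (u + 2 ^ (n + 1)) :=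
      Ico_subset_Ico (by omega) (by omega)
    have r1 := (ih u).mono s1 le_rfl le_rfl
    have r2 := ((ih (u + 2 ^ n)).mono s2 le_rfl le_rfl).smul 2
    have r3 := ((rep_bs s1).pow 4).smul 120
    have r4 := (r1.add r2).add (r3.mono subset_rfl (by norm_num) le_rfl)
    refine (r4.congr (fun e _ => by simp [Uf])).mono subset_rfl le_rfl ?_
    have hc : ((u + 2 ^ n - u : ℕ) : ℝ) = 2 ^ n := by
      rw [Nat.add_sub_cancel_left]; push_cast; ring
    have h16 : ((2 : ℝ) ^ n) ^ 4 = 16 ^ n := by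
      rw [← pow_mul, mul_comm, pow_mul]; norm_num
    rw [hc, h16, pow_succ]
    have : (0 : ℝ) < 16 ^ n := by positivity
    rw [abs_of_pos (by norm_num : (0 : ℝ) < 2), abs_of_pos (by norm_num : (0 : ℝ) < 120)]
    linarith

lemma Ex_Uf {N : ℕ} (n : ℕ) : ∀ u : ℕ, u + 2 ^ n ≤ N → Ex N (Uf n u) ≤ 360 * 4 ^ n := by
  induction n with
  | zero =>
    intro u _
    have : Ex N (Uf 0 u) = Ex N (fun _ => (1 : ℝ)) := Ex_congr (fun e _ => by simp [Uf])
    rw [this, Ex_const]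
    norm_num
  | succ n ih =>
    intro u hu
    have hp : 2 ^ (n + 1) = 2 ^ n + 2 ^ n := by rw [pow_succ]; ring
    have hpos : 0 < 2 ^ n := Nat.two_pow_pos n
    have h1 := ih u (by omega)
    have h2 := ih (u + 2 ^ n) (by omega)
    have h3 := bs_four (N := N) (Ico_sub (u := u) (v := u + 2 ^ n) (by omega))
    have hc : ((u + 2 ^ n - u : ℕ) : ℝ) = 2 ^ n := by
      rw [Nat.add_sub_cancel_left]; push_cast; ring
    have h4 : ((2 : ℝ) ^ n) ^ 2 = 4 ^ n := by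
      rw [← pow_mul, mul_comm, pow_mul]; norm_num
    rw [hc, h4] at h3
    have e1 : Ex N (Uf (n + 1) u) = Ex N (fun e => Uf n u e + 2 * Uf n (u + 2 ^ n) e
        + 120 * bs u (u + 2 ^ n) e ^ 4) := Ex_congr (fun e _ => by simp [Uf])
    have e2 : Ex N (Uf (n + 1) u) = Ex N (Uf n u) + 2 * Ex N (Uf n (u + 2 ^ n))
        + 120 * Ex N (fun e => bs u (u + 2 ^ n) e ^ 4) := by
      rw [e1, Ex_add N (fun e => Uf n u e + 2 * Uf n (u + 2 ^ n) e), Ex_add N (Uf n u), Ex_smul,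
        Ex_smul]
    rw [e2, h3, pow_succ]
    have : (0 : ℝ) < 2 ^ n := by positivity
    linarith

lemma Ex_Uf_sq {N : ℕ} (n : ℕ) : ∀ u : ℕ, u + 2 ^ n ≤ N →
    Ex N (fun e => Uf n u e ^ 2) ≤ 4536000 * 16 ^ n := by
  induction n with
  | zero =>
    intro u _
    have : Ex N (fun e => Uf 0 u e ^ 2) = Ex N (fun _ => (1 : ℝ)) :=
      Ex_congr (fun e _ => by simp [Uf])
    rw [this, Ex_const]
    norm_num
  | succ n ih =>
    intro u hu
    have hp : 2 ^ (n + 1) = 2 ^ n + 2 ^ n := by rw [pow_succ]; ring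
    have hpos : 0 < 2 ^ n := Nat.two_pow_pos n
    have h1 := ih u (by omega)
    have h2 := ih (u + 2 ^ n) (by omega)
    have h3 := bs_eight (N := N) (Ico_sub (u := u) (v := u + 2 ^ n) (by omega))
    have hc : ((u + 2 ^ n - u : ℕ) : ℝ) = 2 ^ n := by
      rw [Nat.add_sub_cancel_left]; push_cast; ring
    have h4 : ((2 : ℝ) ^ n) ^ 4 = 16 ^ n := by
      rw [← pow_mul, mul_comm, pow_mul]; norm_num
    rw [hc, h4] at h3
    have e1 : Ex N (fun e => Uf (n + 1) u e ^ 2) ≤ Ex N (fun e => 3 * Uf n u e ^ 2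
        + 12 * Uf n (u + 2 ^ n) e ^ 2 + 43200 * bs u (u + 2 ^ n) e ^ 8) := by
      refine Ex_mono (fun e _ => ?_)
      have : Uf (n + 1) u e = Uf n u e + 2 * Uf n (u + 2 ^ n) e
        + 120 * bs u (u + 2 ^ n) e ^ 4 := by simp [Uf]
      rw [this]
      generalize Uf n u e = x
      generalize Uf n (u + 2 ^ n) e = y
      have hb : bs u (u + 2 ^ n) e ^ 8 = (bs u (u + 2 ^ n) e ^ 4) ^ 2 := by ring
      rw [hb]
      generalize bs u (u + 2 ^ n) e ^ 4 = w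
      nlinarith [sq_nonneg (x - 2 * y), sq_nonneg (x - 120 * w), sq_nonneg (2 * y - 120 * w)]
    have e2 : Ex N (fun e => 3 * Uf n u e ^ 2
        + 12 * Uf n (u + 2 ^ n) e ^ 2 + 43200 * bs u (u + 2 ^ n) e ^ 8) =
        3 * Ex N (fun e => Uf n u e ^ 2) + 12 * Ex N (fun e => Uf n (u + 2 ^ n) e ^ 2)
        + 43200 * Ex N (fun e => bs u (u + 2 ^ n) e ^ 8) := by
      rw [Ex_add N (fun e => 3 * Uf n u e ^ 2 + 12 * Uf n (u + 2 ^ n) e ^ 2),
        Ex_add N (fun e => 3 * Uf n u e ^ 2), Ex_smul, Ex_smul, Ex_smul]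
    rw [e2] at e1
    rw [pow_succ]
    linarith

lemma rep_yf (n u : ℕ) :
    Rep (Ico u (u + 512 * 2 ^ n)) 4 (2 * (510 * 2 ^ n) ^ 4) (yf n u) := by
  have hpos : 0 < 2 ^ n := Nat.two_pow_pos n
  have s1 : Ico (u + 2 ^ n) (u + 511 * 2 ^ n) ⊆ Ico u (u + 512 * 2 ^ n) :=
    Ico_subset_Ico (by omega) (by omega)
  have s2 : Ico u (u + 2 ^ n) ⊆ Ico u (u + 512 * 2 ^ n) := Ico_subset_Ico le_rfl (by omega)
  have s3 : Ico (u + 511 * 2 ^ n) (u + 511 * 2 ^ n + 2 ^ n) ⊆ Ico u (u + 512 * 2 ^ n) :=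
    Ico_subset_Ico (by omega) (by omega)
  have r1 := (rep_bs s1).pow 4
  have r2 := ((rep_Uf n u).mono s2 le_rfl le_rfl).smul 128
  have r3 := ((rep_Uf n (u + 511 * 2 ^ n)).mono s3 le_rfl le_rfl).smul 8
  have r4 := ((r1.mono subset_rfl (by norm_num) le_rfl).sub r2).sub r3
  refine (r4.congr (fun e _ => rfl)).mono subset_rfl le_rfl ?_
  have hc : ((u + 511 * 2 ^ n - (u + 2 ^ n) : ℕ) : ℝ) = 510 * 2 ^ n := by
    have : u + 511 * 2 ^ n - (u + 2 ^ n) = 510 * 2 ^ n := by omega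
    rw [this]; push_cast; ring
  have h16 : (16 : ℝ) ^ n = ((2 : ℝ) ^ n) ^ 4 := by
    rw [← pow_mul, mul_comm, pow_mul]; norm_num
  rw [hc, h16, abs_of_pos (by norm_num : (0 : ℝ) < 128), abs_of_pos (by norm_num : (0 : ℝ) < 8)]
  have : (0 : ℝ) ≤ ((2 : ℝ) ^ n) ^ 4 := by positivity
  rw [mul_pow]
  nlinarith

lemma Ex_yf {N n u : ℕ} (h : u + 512 * 2 ^ n ≤ N) :
    (510 * 2 ^ n) ^ 2 / 2 ≤ Ex N (yf n u) := by
  have hpos : 0 < 2 ^ n := Nat.two_pow_pos n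
  have b4 := bs_four (N := N) (Ico_sub (u := u + 2 ^ n) (v := u + 511 * 2 ^ n) (by omega))
  have hc : ((u + 511 * 2 ^ n - (u + 2 ^ n) : ℕ) : ℝ) = 510 * 2 ^ n := by
    have : u + 511 * 2 ^ n - (u + 2 ^ n) = 510 * 2 ^ n := by omega
    rw [this]; push_cast; ring
  rw [hc] at b4
  have u1 := Ex_Uf (N := N) n u (by omega)
  have u2 := Ex_Uf (N := N) n (u + 511 * 2 ^ n) (by omega)
  have e1 : Ex N (yf n u) = Ex N (fun e => bs (u + 2 ^ n) (u + 511 * 2 ^ n) e ^ 4)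
      - 128 * Ex N (Uf n u) - 8 * Ex N (Uf n (u + 511 * 2 ^ n)) := by
    have : Ex N (yf n u) = Ex N (fun e => bs (u + 2 ^ n) (u + 511 * 2 ^ n) e ^ 4
      - 128 * Uf n u e - 8 * Uf n (u + 511 * 2 ^ n) e) := rfl
    rw [this, Ex_sub N (fun e => bs (u + 2 ^ n) (u + 511 * 2 ^ n) e ^ 4 - 128 * Uf n u e),
      Ex_sub N (fun e => bs (u + 2 ^ n) (u + 511 * 2 ^ n) e ^ 4), Ex_smul, Ex_smul]
  have h4 : (4 : ℝ) ^ n = ((2 : ℝ) ^ n) ^ 2 := by
    rw [← pow_mul, mul_comm, pow_mul]; norm_num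
  rw [h4] at u1 u2
  have h1 : (1 : ℝ) ≤ 2 ^ n := one_le_pow₀ (by norm_num)
  rw [e1, b4]
  nlinarith

lemma Ex_yf_sq {N n u : ℕ} (h : u + 512 * 2 ^ n ≤ N) :
    Ex N (fun e => yf n u e ^ 2) ≤ 108 * (510 * 2 ^ n) ^ 4 := by
  have hpos : 0 < 2 ^ n := Nat.two_pow_pos n
  have b8 := bs_eight (N := N) (Ico_sub (u := u + 2 ^ n) (v := u + 511 * 2 ^ n) (by omega))
  have hc : ((u + 511 * 2 ^ n - (u + 2 ^ n) : ℕ) : ℝ) = 510 * 2 ^ n := by
    have : u + 511 * 2 ^ n - (u + 2 ^ n) = 510 * 2 ^ n := by omega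
    rw [this]; push_cast; ring
  rw [hc] at b8
  have u1 := Ex_Uf_sq (N := N) n u (by omega)
  have u2 := Ex_Uf_sq (N := N) n (u + 511 * 2 ^ n) (by omega)
  have e1 : Ex N (fun e => yf n u e ^ 2) ≤
      Ex N (fun e => bs (u + 2 ^ n) (u + 511 * 2 ^ n) e ^ 8
      + 32768 * Uf n u e ^ 2 + 128 * Uf n (u + 511 * 2 ^ n) e ^ 2) := by
    refine Ex_mono (fun e _ => ?_)
    have p1 := Uf_nonneg n u e
    have p2 := Uf_nonneg n (u + 511 * 2 ^ n) e
    have p3 : 0 ≤ bs (u + 2 ^ n) (u + 511 * 2 ^ n) e ^ 4 := by positivity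
    have hb : bs (u + 2 ^ n) (u + 511 * 2 ^ n) e ^ 8
      = (bs (u + 2 ^ n) (u + 511 * 2 ^ n) e ^ 4) ^ 2 := by ring
    rw [hb]
    unfold yf
    generalize Uf n u e = x at *
    generalize Uf n (u + 511 * 2 ^ n) e = y at *
    generalize bs (u + 2 ^ n) (u + 511 * 2 ^ n) e ^ 4 = w at *
    have q1 : 0 ≤ w * (128 * x + 8 * y) := by positivity
    nlinarith [sq_nonneg (128 * x - 8 * y)]
  have e2 : Ex N (fun e => bs (u + 2 ^ n) (u + 511 * 2 ^ n) e ^ 8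
      + 32768 * Uf n u e ^ 2 + 128 * Uf n (u + 511 * 2 ^ n) e ^ 2) =
      Ex N (fun e => bs (u + 2 ^ n) (u + 511 * 2 ^ n) e ^ 8)
      + 32768 * Ex N (fun e => Uf n u e ^ 2)
      + 128 * Ex N (fun e => Uf n (u + 511 * 2 ^ n) e ^ 2) := by
    rw [Ex_add N (fun e => bs (u + 2 ^ n) (u + 511 * 2 ^ n) e ^ 8 + 32768 * Uf n u e ^ 2),
      Ex_add N (fun e => bs (u + 2 ^ n) (u + 511 * 2 ^ n) e ^ 8), Ex_smul, Ex_smul]
  have h16 : (16 : ℝ) ^ n = ((2 : ℝ) ^ n) ^ 4 := by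
    rw [← pow_mul, mul_comm, pow_mul]; norm_num
  rw [e2] at e1
  rw [h16] at u1 u2
  have : (0 : ℝ) ≤ ((2 : ℝ) ^ n) ^ 4 := by positivity
  rw [mul_pow] at b8 ⊢
  nlinarith

end Mom

open Mom in
theorem moments : StmtMoments := by
  intro N n u h
  have hh : (1 : ℝ) ≤ 2 ^ n := one_le_pow₀ (by norm_num)
  have hc0 : 0 < cf n := by unfold cf; positivity
  constructor
  · have r1 := rep_yf n u
    have r2 := r1.pow 2
    have r3 := (((rep_const (Ico u (u + 512 * 2 ^ n)) 8 1).sub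
      ((r1.mono subset_rfl (by norm_num : 4 ≤ 8) le_rfl).smul (2 / (1024 * cf n)))).add
      ((r2.mono subset_rfl (by norm_num : 2 * 4 ≤ 8) le_rfl).smul (1 / (1024 * cf n ^ 2))))
    refine (r3.congr (fun e _ => ?_)).mono subset_rfl le_rfl ?_
    · unfold Rf
      field_simp
      ring
    · rw [abs_of_pos (by positivity : (0 : ℝ) < 2 / (1024 * cf n)),
        abs_of_pos (by positivity : (0 : ℝ) < 1 / (1024 * cf n ^ 2)), abs_one]
      unfold cf
      generalize (2 : ℝ) ^ n = t at *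
      have ht : 0 < t := by linarith
      have a1 : 2 / (1024 * (216 * (510 * t) ^ 2)) * (2 * (510 * t) ^ 4)
          = (510 * t) ^ 2 / 55296 := by
        field_simp
        ring
      have a2 : 1 / (1024 * (216 * (510 * t) ^ 2) ^ 2) * (2 * (510 * t) ^ 4) ^ 2
          = (510 * t) ^ 4 / 11943936 := by
        field_simp
        ring
      rw [a1, a2]
      have b1 : t ^ 2 ≤ t ^ 4 := by nlinarith [sq_nonneg t, mul_self_nonneg (t - 1)]
      have b2 : 1 ≤ t ^ 2 := by nlinarith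
      rw [mul_pow, mul_pow, mul_pow]
      nlinarith
  · have y1 := Ex_yf h
    have y2 := Ex_yf_sq h
    have e1 : Ex N (Rf n u) = 2 / cf n * Ex N (yf n u)
        - 1 / cf n ^ 2 * Ex N (fun e => yf n u e ^ 2) := by
      rw [← Ex_smul, ← Ex_smul, ← Ex_sub]
      refine Ex_congr (fun e _ => ?_)
      unfold Rf
      field_simp
      ring
    rw [e1]
    have hm : (0 : ℝ) < (510 * 2 ^ n) ^ 2 := by positivity
    have e2 : 2 / cf n * ((510 * 2 ^ n) ^ 2 / 2) = 1 / 216 := by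
      unfold cf
      field_simp
    have e3 : 1 / cf n ^ 2 * (108 * (510 * 2 ^ n) ^ 4) = 1 / 432 := by
      unfold cf
      field_simp
      ring
    have i1 : 2 / cf n * ((510 * 2 ^ n) ^ 2 / 2) ≤ 2 / cf n * Ex N (yf n u) :=
      mul_le_mul_of_nonneg_left y1 (by positivity)
    have i2 : 1 / cf n ^ 2 * Ex N (fun e => yf n u e ^ 2)
        ≤ 1 / cf n ^ 2 * (108 * (510 * 2 ^ n) ^ 4) :=
      mul_le_mul_of_nonneg_left y2 (by positivity)
    rw [e2] at i1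
    rw [e3] at i2
    have : (1 : ℝ) / 432 = 1 / 216 - 1 / 432 := by norm_num
    linarith

end Pool.Agent.LVL
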