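import Pool.Agent.LVL.Defs

/-!
# Walsh expansions: closure properties, independence, comparison
-/

open Finset

namespace Pool.Agent.LVL

lemma sg_sign (s : Finset ℕ) (n : ℕ) : sg s n = 1 ∨ sg s n = -1 := by
  unfold sg
  split
  · exact Or.inr rfl
  · exact Or.inl rfl

lemma sign_sq {e : ℕ → ℝ} (he : ∀ n, e n = 1 ∨ e n = -1) (n : ℕ) : e n * e n = 1 := by
  rcases he n with h | h <;> rw [h] <;> norm_num

lemma prod_sign_sq {e : ℕ → ℝ} (he : ∀ n, e n = 1 ∨ e n = -1) (I : Finset ℕ) :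
    (∏ n ∈ I, e n) * (∏ n ∈ I, e n) = 1 := by
  rw [← Finset.prod_mul_distrib]
  exact Finset.prod_eq_one (fun n _ => sign_sq he n)

lemma prod_symmDiff_sign {e : ℕ → ℝ} (he : ∀ n, e n = 1 ∨ e n = -1) (I J : Finset ℕ) :
    ∏ n ∈ symmDiff I J, e n = (∏ n ∈ I, e n) * ∏ n ∈ J, e n := by
  have h1 : (∏ n ∈ I \ J, e n) * ∏ n ∈ I ∩ J, e n = ∏ n ∈ I, e n := by
    rw [← Finset.prod_union (Finset.disjoint_sdiff_inter I J), Finset.sdiff_union_inter]
  have h2 : (∏ n ∈ J \ I, e n) * ∏ n ∈ I ∩ J, e n = ∏ n ∈ J, e n := by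
    rw [Finset.inter_comm, ← Finset.prod_union (Finset.disjoint_sdiff_inter J I),
      Finset.sdiff_union_inter]
  have h3 : ∏ n ∈ symmDiff I J, e n = (∏ n ∈ I \ J, e n) * ∏ n ∈ J \ I, e n := by
    rw [symmDiff_def, Finset.sup_eq_union, Finset.prod_union]
    exact disjoint_sdiff_sdiff
  rw [h3, ← h1, ← h2]
  have h4 := prod_sign_sq he (I ∩ J)
  calc (∏ n ∈ I \ J, e n) * ∏ n ∈ J \ I, e n
      = (∏ n ∈ I \ J, e n) * (∏ n ∈ J \ I, e n) *
        ((∏ n ∈ I ∩ J, e n) * (∏ n ∈ I ∩ J, e n)) := by rw [h4, mul_one]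
    _ = _ := by ring

lemma card_symmDiff_le (I J : Finset ℕ) : (symmDiff I J).card ≤ I.card + J.card := by
  rw [symmDiff_def, Finset.sup_eq_union]
  refine (Finset.card_union_le _ _).trans ?_
  exact Nat.add_le_add (Finset.card_le_card Finset.sdiff_subset)
    (Finset.card_le_card Finset.sdiff_subset)

lemma symmDiff_subset_union' (I J : Finset ℕ) : symmDiff I J ⊆ I ∪ J := by
  intro x hx
  rw [Finset.mem_symmDiff] at hx
  rw [Finset.mem_union]
  rcases hx with h | h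
  · exact Or.inl h.1
  · exact Or.inr h.1

/-! ### closure of `Rep` -/

lemma Rep.mono {V V' : Finset ℕ} {d d' : ℕ} {A A' : ℝ} {f : (ℕ → ℝ) → ℝ} (h : Rep V d A f)
    (hV : V ⊆ V') (hd : d ≤ d') (hA : A ≤ A') : Rep V' d' A' f := by
  obtain ⟨ι, _, c, I, h1, h2, h3⟩ := h
  exact ⟨ι, _, c, I, fun i => ⟨(h1 i).1.trans hV, (h1 i).2.trans hd⟩, h2.trans hA, h3⟩

lemma Rep.congr {V : Finset ℕ} {d : ℕ} {A : ℝ} {f g : (ℕ → ℝ) → ℝ} (h : Rep V d A f)
    (hfg : ∀ e : ℕ → ℝ, (∀ n, e n = 1 ∨ e n = -1) → g e = f e) : Rep V d A g := by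
  obtain ⟨ι, _, c, I, h1, h2, h3⟩ := h
  exact ⟨ι, _, c, I, h1, h2, fun e he => by rw [hfg e he, h3 e he]⟩

lemma rep_const (V : Finset ℕ) (d : ℕ) (a : ℝ) : Rep V d |a| (fun _ => a) := by
  refine ⟨Unit, inferInstance, fun _ => a, fun _ => ∅, fun _ => ⟨by simp, by simp⟩, by simp,
    fun e _ => by simp⟩

lemma rep_var {V : Finset ℕ} {n : ℕ} (hn : n ∈ V) : Rep V 1 1 (fun e => e n) := by
  refine ⟨Unit, inferInstance, fun _ => 1, fun _ => {n}, fun _ => ⟨by simpa using hn, by simp⟩,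
    by simp, fun e _ => by simp⟩

lemma Rep.add {V : Finset ℕ} {d : ℕ} {A B : ℝ} {f g : (ℕ → ℝ) → ℝ} (hf : Rep V d A f)
    (hg : Rep V d B g) : Rep V d (A + B) (fun e => f e + g e) := by
  obtain ⟨ι, _, c, I, h1, h2, h3⟩ := hf
  obtain ⟨κ, _, c', I', h1', h2', h3'⟩ := hg
  refine ⟨ι ⊕ κ, inferInstance, Sum.elim c c', Sum.elim I I', ?_, ?_, ?_⟩
  · rintro (i | i)
    · exact h1 i
    · exact h1' i
  · rw [Fintype.sum_sum_type]
    exact add_le_add h2 h2'
  · intro e he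
    show f e + g e = _
    rw [Fintype.sum_sum_type, h3 e he, h3' e he]
    rfl

lemma Rep.mul {V W : Finset ℕ} {d d' : ℕ} {A B : ℝ} {f g : (ℕ → ℝ) → ℝ} (hf : Rep V d A f)
    (hg : Rep W d' B g) : Rep (V ∪ W) (d + d') (A * B) (fun e => f e * g e) := by
  obtain ⟨ι, _, c, I, h1, h2, h3⟩ := hf
  obtain ⟨κ, _, c', I', h1', h2', h3'⟩ := hg
  refine ⟨ι × κ, inferInstance, fun x => c x.1 * c' x.2, fun x => symmDiff (I x.1) (I' x.2),
    ?_, ?_, ?_⟩
  · rintro ⟨i, j⟩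
    exact ⟨(symmDiff_subset_union' _ _).trans (Finset.union_subset_union (h1 i).1 (h1' j).1),
      (card_symmDiff_le _ _).trans (Nat.add_le_add (h1 i).2 (h1' j).2)⟩
  · rw [Fintype.sum_prod_type]
    have : ∀ i, ∑ j, |c i * c' j| = |c i| * ∑ j, |c' j| := by
      intro i
      rw [Finset.mul_sum]
      exact Finset.sum_congr rfl (fun j _ => abs_mul _ _)
    simp_rw [this]
    rw [← Finset.sum_mul]
    have hA : 0 ≤ ∑ i, |c i| := Finset.sum_nonneg (fun i _ => abs_nonneg _)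
    have hB : 0 ≤ ∑ j, |c' j| := Finset.sum_nonneg (fun i _ => abs_nonneg _)
    exact mul_le_mul h2 h2' hB (hA.trans h2)
  · intro e he
    show f e * g e = _
    rw [Fintype.sum_prod_type, h3 e he, h3' e he, Finset.sum_mul]
    refine Finset.sum_congr rfl (fun i _ => ?_)
    rw [Finset.mul_sum]
    refine Finset.sum_congr rfl (fun j _ => ?_)
    show _ = (c i * c' j) * ∏ n ∈ symmDiff (I i) (I' j), e n
    rw [prod_symmDiff_sign he]
    ring

lemma Rep.mul' {V : Finset ℕ} {d d' : ℕ} {A B : ℝ} {f g : (ℕ → ℝ) → ℝ} (hf : Rep V d A f)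
    (hg : Rep V d' B g) : Rep V (d + d') (A * B) (fun e => f e * g e) := by
  have := hf.mul hg
  rwa [Finset.union_self] at this

lemma Rep.nonneg {V : Finset ℕ} {d : ℕ} {A : ℝ} {f : (ℕ → ℝ) → ℝ} (hf : Rep V d A f) : 0 ≤ A := by
  obtain ⟨ι, _, c, I, h1, h2, h3⟩ := hf
  exact (Finset.sum_nonneg (fun i _ => abs_nonneg _)).trans h2

lemma Rep.smul {V : Finset ℕ} {d : ℕ} {A : ℝ} {f : (ℕ → ℝ) → ℝ} (a : ℝ) (hf : Rep V d A f) :
    Rep V d (|a| * A) (fun e => a * f e) := by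
  have := (rep_const V 0 a).mul' hf
  rwa [zero_add] at this

lemma Rep.sub {V : Finset ℕ} {d : ℕ} {A B : ℝ} {f g : (ℕ → ℝ) → ℝ} (hf : Rep V d A f)
    (hg : Rep V d B g) : Rep V d (A + B) (fun e => f e - g e) := by
  have h := hf.add (hg.smul (-1))
  rw [abs_neg, abs_one, one_mul] at h
  exact h.congr (fun e _ => by ring)

lemma Rep.pow {V : Finset ℕ} {d : ℕ} {A : ℝ} {f : (ℕ → ℝ) → ℝ} (hf : Rep V d A f) (k : ℕ) :
    Rep V (k * d) (A ^ k) (fun e => f e ^ k) := by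
  induction k with
  | zero =>
    have := rep_const V (0 * d) 1
    simpa using this
  | succ k ih =>
    have := ih.mul' hf
    refine (this.congr (fun e _ => pow_succ _ _)).mono subset_rfl (by rw [Nat.succ_mul]) ?_
    rw [pow_succ]

lemma rep_sum {V : Finset ℕ} (s : Finset ℕ) (hs : s ⊆ V) :
    Rep V 1 s.card (fun e => ∑ n ∈ s, e n) := by
  classical
  induction s using Finset.induction_on with
  | empty =>
    have := rep_const V 1 0
    simpa using this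
  | insert a s ha ih =>
    have h1 := (rep_var (hs (Finset.mem_insert_self a s))).add
      (ih ((Finset.subset_insert a s).trans hs))
    refine (h1.congr (fun e _ => ?_)).mono subset_rfl le_rfl ?_
    · rw [Finset.sum_insert ha]
    · rw [Finset.card_insert_of_notMem ha]; push_cast; linarith

lemma rep_bs {u v : ℕ} {V : Finset ℕ} (h : Ico u v ⊆ V) :
    Rep V 1 ((v - u : ℕ) : ℝ) (bs u v) := by
  have := rep_sum (Ico u v) h
  rwa [Nat.card_Ico] at this

lemma rep_prod {κ : Type} (s : Finset κ) (V : κ → Finset ℕ) (d : κ → ℕ) (A : κ → ℝ)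
    (f : κ → (ℕ → ℝ) → ℝ) (h : ∀ j ∈ s, Rep (V j) (d j) (A j) (f j)) :
    Rep (s.biUnion V) (∑ j ∈ s, d j) (∏ j ∈ s, A j) (fun e => ∏ j ∈ s, f j e) := by
  classical
  induction s using Finset.induction_on with
  | empty =>
    have := rep_const (∅ : Finset ℕ) 0 1
    simpa using this
  | insert a s ha ih =>
    have h1 := (h a (Finset.mem_insert_self a s)).mul
      (ih (fun j hj => h j (Finset.mem_insert_of_mem hj)))
    rw [Finset.biUnion_insert, Finset.sum_insert ha, Finset.prod_insert ha]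
    exact h1.congr (fun e _ => Finset.prod_insert ha)

/-! ### the average over the cube -/

lemma Ex_congr {N : ℕ} {f g : (ℕ → ℝ) → ℝ}
    (h : ∀ e : ℕ → ℝ, (∀ n, e n = 1 ∨ e n = -1) → f e = g e) : Ex N f = Ex N g := by
  unfold Ex
  congr 1
  exact Finset.sum_congr rfl (fun s _ => h _ (sg_sign s))

lemma Ex_mono {N : ℕ} {f g : (ℕ → ℝ) → ℝ}
    (h : ∀ e : ℕ → ℝ, (∀ n, e n = 1 ∨ e n = -1) → f e ≤ g e) : Ex N f ≤ Ex N g := by
  unfold Ex
  have : (0 : ℝ) ≤ 2 ^ N := by positivity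
  exact div_le_div_of_nonneg_right (Finset.sum_le_sum (fun s _ => h _ (sg_sign s))) this

lemma Ex_add (N : ℕ) (f g : (ℕ → ℝ) → ℝ) : Ex N (fun e => f e + g e) = Ex N f + Ex N g := by
  unfold Ex
  rw [Finset.sum_add_distrib, add_div]

lemma Ex_sub (N : ℕ) (f g : (ℕ → ℝ) → ℝ) : Ex N (fun e => f e - g e) = Ex N f - Ex N g := by
  unfold Ex
  rw [Finset.sum_sub_distrib, sub_div]

lemma Ex_smul (N : ℕ) (a : ℝ) (f : (ℕ → ℝ) → ℝ) : Ex N (fun e => a * f e) = a * Ex N f := by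
  unfold Ex
  rw [← Finset.mul_sum, mul_div_assoc]

lemma Ex_const (N : ℕ) (a : ℝ) : Ex N (fun _ => a) = a := by
  unfold Ex
  rw [Finset.sum_const, Finset.card_powerset, Finset.card_range, nsmul_eq_mul]
  push_cast
  field_simp

lemma Ex_sum {κ : Type} (N : ℕ) (s : Finset κ) (f : κ → (ℕ → ℝ) → ℝ) :
    Ex N (fun e => ∑ j ∈ s, f j e) = ∑ j ∈ s, Ex N (f j) := by
  unfold Ex
  rw [Finset.sum_comm, Finset.sum_div]

lemma Ex_nonneg {N : ℕ} {f : (ℕ → ℝ) → ℝ}
    (h : ∀ e : ℕ → ℝ, (∀ n, e n = 1 ∨ e n = -1) → 0 ≤ f e) : 0 ≤ Ex N f := by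
  have := Ex_mono (N := N) (f := fun _ => 0) (g := f) h
  rwa [Ex_const] at this

lemma Ex_walsh (N : ℕ) (I : Finset ℕ) (hI : I ⊆ range N) :
    Ex N (fun e => ∏ n ∈ I, e n) = if I = ∅ then 1 else 0 := by
  split_ifs with h
  · subst h
    simp only [Finset.prod_empty]
    exact Ex_const N 1
  · unfold Ex
    have h1 := Finset.prod_add (fun i : ℕ => (if i ∈ I then (-1 : ℝ) else 1)) (fun _ => (1 : ℝ))
      (range N)
    have h2 : ∏ i ∈ range N, ((if i ∈ I then (-1 : ℝ) else 1) + 1) = 0 := by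
      obtain ⟨i, hi⟩ := Finset.nonempty_iff_ne_empty.2 h
      refine Finset.prod_eq_zero (hI hi) ?_
      rw [if_pos hi]; norm_num
    have h3 : ∑ s ∈ (range N).powerset, ∏ n ∈ I, sg s n = 0 := by
      rw [← h2, h1]
      refine Finset.sum_congr rfl (fun t _ => ?_)
      rw [Finset.prod_const_one, mul_one]
      unfold sg
      rw [Finset.prod_ite_mem, Finset.prod_ite_mem, Finset.inter_comm]
    rw [h3, zero_div]

/-- the constant coefficient -/
lemma Ex_rep_eq (N : ℕ) {ι : Type} [Fintype ι] (c : ι → ℝ) (I : ι → Finset ℕ)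
    (hI : ∀ i, I i ⊆ range N) (f : (ℕ → ℝ) → ℝ)
    (hf : ∀ e : ℕ → ℝ, (∀ n, e n = 1 ∨ e n = -1) → f e = ∑ i, c i * ∏ n ∈ I i, e n) :
    Ex N f = ∑ i, if I i = ∅ then c i else 0 := by
  rw [Ex_congr hf, Ex_sum]
  refine Finset.sum_congr rfl (fun i _ => ?_)
  rw [Ex_smul, Ex_walsh N _ (hI i)]
  split_ifs <;> ring

lemma Ex_mul_indep {N : ℕ} {V W : Finset ℕ} {d d' : ℕ} {A B : ℝ} {f g : (ℕ → ℝ) → ℝ}
    (hf : Rep V d A f) (hg : Rep W d' B g) (hVW : Disjoint V W) (hV : V ⊆ range N)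
    (hW : W ⊆ range N) : Ex N (fun e => f e * g e) = Ex N f * Ex N g := by
  obtain ⟨ι, _, c, I, h1, h2, h3⟩ := hf
  obtain ⟨κ, _, c', I', h1', h2', h3'⟩ := hg
  rw [Ex_rep_eq N c I (fun i => (h1 i).1.trans hV) f h3,
    Ex_rep_eq N c' I' (fun i => (h1' i).1.trans hW) g h3']
  rw [Ex_rep_eq N (fun x : ι × κ => c x.1 * c' x.2) (fun x => symmDiff (I x.1) (I' x.2))
    (fun x => (symmDiff_subset_union' _ _).trans
      (Finset.union_subset ((h1 x.1).1.trans hV) ((h1' x.2).1.trans hW)))]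
  · rw [Fintype.sum_prod_type, Finset.sum_mul]
    refine Finset.sum_congr rfl (fun i _ => ?_)
    rw [Finset.mul_sum]
    refine Finset.sum_congr rfl (fun j _ => ?_)
    have hdis : Disjoint (I i) (I' j) :=
      Finset.disjoint_of_subset_left (h1 i).1 (Finset.disjoint_of_subset_right (h1' j).1 hVW)
    have hiff : symmDiff (I i) (I' j) = ∅ ↔ I i = ∅ ∧ I' j = ∅ := by
      rw [hdis.symmDiff_eq_sup, Finset.sup_eq_union, Finset.union_eq_empty]
    simp only [hiff]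
    by_cases h5 : I i = ∅ <;> by_cases h6 : I' j = ∅ <;> simp [h5, h6]
  · intro e he
    rw [Fintype.sum_prod_type, h3 e he, h3' e he, Finset.sum_mul]
    refine Finset.sum_congr rfl (fun i _ => ?_)
    rw [Finset.mul_sum]
    refine Finset.sum_congr rfl (fun j _ => ?_)
    rw [prod_symmDiff_sign he]
    ring

lemma Ex_prod_indep {N : ℕ} {κ : Type} (s : Finset κ) (V : κ → Finset ℕ) (d : κ → ℕ)
    (A : κ → ℝ) (f : κ → (ℕ → ℝ) → ℝ) (h : ∀ j ∈ s, Rep (V j) (d j) (A j) (f j))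
    (hV : ∀ j ∈ s, V j ⊆ range N)
    (hd : ∀ i ∈ s, ∀ j ∈ s, i ≠ j → Disjoint (V i) (V j)) :
    Ex N (fun e => ∏ j ∈ s, f j e) = ∏ j ∈ s, Ex N (f j) := by
  classical
  induction s using Finset.induction_on with
  | empty => simpa using Ex_const N 1
  | insert a s ha ih =>
    rw [Finset.prod_insert ha, ← ih (fun j hj => h j (Finset.mem_insert_of_mem hj))
      (fun j hj => hV j (Finset.mem_insert_of_mem hj))
      (fun i hi j hj => hd i (Finset.mem_insert_of_mem hi) j (Finset.mem_insert_of_mem hj))]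
    have hrep := rep_prod s V d A f (fun j hj => h j (Finset.mem_insert_of_mem hj))
    rw [← Ex_mul_indep (h a (Finset.mem_insert_self a s)) hrep ?_
      (hV a (Finset.mem_insert_self a s)) ?_]
    · exact Ex_congr (fun e _ => Finset.prod_insert ha)
    · rw [Finset.disjoint_biUnion_right]
      intro j hj
      exact hd a (Finset.mem_insert_self a s) j (Finset.mem_insert_of_mem hj)
        (fun h' => ha (h' ▸ hj))
    · exact Finset.biUnion_subset.2 (fun j hj => hV j (Finset.mem_insert_of_mem hj))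

/-- comparison of an average over a family of sign sequences with the cube average -/
lemma compare {N d : ℕ} {V : Finset ℕ} {A w : ℝ} {f : (ℕ → ℝ) → ℝ} {α : Type} (s : Finset α)
    (ε : α → ℕ → ℝ) (hε : ∀ a ∈ s, ∀ n, ε a n = 1 ∨ ε a n = -1)
    (hw : ∀ I : Finset ℕ, I ⊆ range N → I.Nonempty → I.card ≤ d →
      |∑ a ∈ s, ∏ n ∈ I, ε a n| ≤ w)
    (hw0 : 0 ≤ w) (hf : Rep V d A f) (hV : V ⊆ range N) :
    |∑ a ∈ s, f (ε a) - (s.card : ℝ) * Ex N f| ≤ A * w := by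
  obtain ⟨ι, _, c, I, h1, h2, h3⟩ := hf
  rw [Ex_rep_eq N c I (fun i => (h1 i).1.trans hV) f h3]
  have e1 : ∑ a ∈ s, f (ε a) = ∑ i, c i * ∑ a ∈ s, ∏ n ∈ I i, ε a n := by
    rw [Finset.sum_congr rfl (fun a ha => h3 (ε a) (hε a ha)), Finset.sum_comm]
    exact Finset.sum_congr rfl (fun i _ => by rw [Finset.mul_sum])
  rw [e1, Finset.mul_sum, ← Finset.sum_sub_distrib]
  refine (Finset.abs_sum_le_sum_abs _ _).trans ?_
  have : ∀ i ∈ (Finset.univ : Finset ι), |c i * ∑ a ∈ s, ∏ n ∈ I i, ε a n -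
      (s.card : ℝ) * (if I i = ∅ then c i else 0)| ≤ |c i| * w := by
    intro i _
    by_cases h : I i = ∅
    · rw [if_pos h, h]
      simp only [Finset.prod_empty, Finset.sum_const, nsmul_eq_mul, mul_one]
      rw [mul_comm, sub_self, abs_zero]
      positivity
    · rw [if_neg h, mul_zero, sub_zero, abs_mul]
      exact mul_le_mul_of_nonneg_left
        (hw _ ((h1 i).1.trans hV) (Finset.nonempty_iff_ne_empty.2 h) (h1 i).2) (abs_nonneg _)
  refine (Finset.sum_le_sum this).trans ?_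
  rw [← Finset.sum_mul]
  exact mul_le_mul_of_nonneg_right h2 hw0

end Pool.Agent.LVL
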