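import Pool.Agent.LVL.Rep

/-!
# Level sets of the Legendre walk: statements of the modules Tree and Disj
-/

open Finset

namespace Pool.Agent.LVL

/-- start of the half window of level `k + 1` (length `1024^(k+1)`) not containing `t` -/
def uk (k t : ℕ) : ℕ :=
  if (t / 1024 ^ k) % 1024 < 512 then (t / 1024 ^ (k + 1)) * 1024 ^ (k + 1) + 512 * 1024 ^ k
  else (t / 1024 ^ (k + 1)) * 1024 ^ (k + 1)

/-- the deterministic tree inequality (in the form used) -/
def StmtTree : Prop :=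
  ∀ (J : ℕ) (e : ℕ → ℝ) (S : ℕ → ℝ) (h : ℝ), (∀ m, e m = 1 ∨ e m = -1) →
    (∀ m < 1024 ^ J, S (m + 1) - S m = e m) → ∀ l : ℝ, 0 < l →
    (((range (1024 ^ J)).filter (fun t => S t = h)).card : ℝ) ≤
      l * 1024 ^ J + (1 / (4 * l)) *
        ∑ t ∈ range (1024 ^ J), ∏ k ∈ range J, (1 - Rf (10 * k) (uk k t) e / 1024)

/-- the supports of the test polynomials of one point `t` are disjoint -/
def StmtDisj : Prop :=
  (∀ t k k' : ℕ, k < k' →
    Disjoint (Ico (uk k t) (uk k t + 512 * 1024 ^ k))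
      (Ico (uk k' t) (uk k' t + 512 * 1024 ^ k'))) ∧
  (∀ J t k : ℕ, k < J → t < 1024 ^ J →
    Ico (uk k t) (uk k t + 512 * 1024 ^ k) ⊆ range (1024 ^ J))

end Pool.Agent.LVL
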