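import Pool.Agent.LVL.Defs

open Finset Polynomial

namespace Pool.Agent.LVL

namespace TestAux

lemma ineq (a b : ℝ) : (a + b) ^ 4 ≤ 120 * a ^ 4 + 2 * b ^ 4 := by
  nlinarith [sq_nonneg (b ^ 2 - 2 * a * b - 7 * a ^ 2), mul_nonneg (sq_nonneg a)
    (add_nonneg (sq_nonneg (2 * b - 8 * a)) (mul_nonneg (by norm_num : (0:ℝ) ≤ 6) (sq_nonneg a)))]

lemma ineq8 (a b : ℝ) : (a + b) ^ 4 ≤ 8 * (a ^ 4 + b ^ 4) := by
  nlinarith [sq_nonneg (a ^ 2 - b ^ 2), sq_nonneg (a - b), sq_nonneg (a + b),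
    sq_nonneg ((a - b) * (a + b)), sq_nonneg ((a - b) ^ 2), mul_nonneg (sq_nonneg (a - b))
    (add_nonneg (sq_nonneg (a + b)) (add_nonneg (sq_nonneg a) (sq_nonneg b)))]

lemma bs_add {u v w : ℕ} (h1 : u ≤ v) (h2 : v ≤ w) (e : ℕ → ℝ) :
    bs u w e = bs u v e + bs v w e := by
  unfold bs
  rw [← Finset.sum_Ico_consecutive e h1 h2]

lemma Uf_nonneg (e : ℕ → ℝ) : ∀ n u, 0 ≤ Uf n u e := by
  intro n
  induction n with
  | zero => intro u; simp [Uf]
  | succ n ih =>
    intro u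
    have h1 := ih u
    have h2 := ih (u + 2 ^ n)
    have h3 : 0 ≤ (bs u (u + 2 ^ n) e) ^ 4 := by positivity
    simp only [Uf]
    linarith

lemma prefix_le {e : ℕ → ℝ} (he : ∀ m, e m = 1 ∨ e m = -1) :
    ∀ n u s, s ≤ 2 ^ n → (bs u (u + s) e) ^ 4 ≤ Uf n u e := by
  intro n
  induction n with
  | zero =>
    intro u s hs
    simp only [pow_zero] at hs
    interval_cases s
    · simp [bs, Uf]
    · rcases he u with h | h
      · simp [bs, Uf, h]
      · simp [bs, Uf, h]; norm_num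
  | succ n ih =>
    intro u s hs
    have h1 := Uf_nonneg e n (u + 2 ^ n)
    have h2 : 0 ≤ (bs u (u + 2 ^ n) e) ^ 4 := by positivity
    rcases le_total s (2 ^ n) with h | h
    · have h3 := ih u s h
      simp only [Uf]
      linarith
    · obtain ⟨s', rfl⟩ := Nat.exists_eq_add_of_le h
      have h4 := ih (u + 2 ^ n) s' (by rw [pow_succ] at hs; omega)
      have h5 : bs u (u + (2 ^ n + s')) e =
          bs u (u + 2 ^ n) e + bs (u + 2 ^ n) (u + 2 ^ n + s') e := by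
        rw [← add_assoc]
        exact bs_add (by omega) (by omega) e
      rw [h5]
      have h6 := ineq (bs u (u + 2 ^ n) e) (bs (u + 2 ^ n) (u + 2 ^ n + s') e)
      have h7 := Uf_nonneg e n u
      simp only [Uf]
      linarith

lemma suffix_le {e : ℕ → ℝ} (he : ∀ m, e m = 1 ∨ e m = -1) (n u m : ℕ) (h1 : u ≤ m)
    (h2 : m ≤ u + 2 ^ n) : (bs m (u + 2 ^ n) e) ^ 4 ≤ 16 * Uf n u e := by
  obtain ⟨s, rfl⟩ := Nat.exists_eq_add_of_le h1
  have a1 := prefix_le he n u s (by omega)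
  have a2 := prefix_le he n u (2 ^ n) le_rfl
  have a3 := bs_add h1 h2 e
  have a4 : bs (u + s) (u + 2 ^ n) e = bs u (u + 2 ^ n) e + -bs u (u + s) e := by
    rw [a3]; ring
  rw [a4]
  have a5 := ineq8 (bs u (u + 2 ^ n) e) (-bs u (u + s) e)
  have a6 : (-bs u (u + s) e) ^ 4 = (bs u (u + s) e) ^ 4 := by ring
  rw [a6] at a5
  linarith

lemma walk {e : ℕ → ℝ} {S : ℕ → ℝ} {u w : ℕ} (hS : ∀ m, u ≤ m → m < w → S (m + 1) - S m = e m) :
    ∀ m m', u ≤ m → m ≤ m' → m' ≤ w → S m' - S m = bs m m' e := by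
  intro m m' h1 h2 h3
  unfold bs
  induction m', h2 using Nat.le_induction with
  | base => simp
  | succ k hk ih =>
    rw [Finset.sum_Ico_succ_top hk, ← ih (by omega), ← hS k (by omega) (by omega)]
    ring

end TestAux

open TestAux

theorem test : StmtTest := by
  intro n u e S he hS
  refine ⟨?_, ?_⟩
  · unfold Rf
    linarith [sq_nonneg (1 - yf n u e / cf n)]
  · intro hR h
    have hc : 0 < cf n := by unfold cf; positivity
    have hy : 0 < yf n u e := by
      by_contra hy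
      push Not at hy
      have : yf n u e / cf n ≤ 0 := div_nonpos_of_nonpos_of_nonneg hy hc.le
      unfold Rf at hR
      nlinarith
    by_contra hcon
    push Not at hcon
    obtain ⟨⟨m, m1, m2, m3⟩, ⟨m', k1, k2, k3⟩⟩ := hcon
    have hp : 0 < 2 ^ n := by positivity
    have e1 : S m' - S m = bs m m' e := walk hS m m' m1 (by omega) (by omega)
    have e2 : bs m m' e = bs m (u + 2 ^ n) e + bs (u + 2 ^ n) m' e :=
      bs_add (by omega) (by omega) e
    have e3 : bs (u + 2 ^ n) m' e =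
        bs (u + 2 ^ n) (u + 511 * 2 ^ n) e + bs (u + 511 * 2 ^ n) m' e :=
      bs_add (by omega) (by omega) e
    have a1 := suffix_le he n u m m1 m2.le
    obtain ⟨s, hs⟩ := Nat.exists_eq_add_of_le k1
    have a2 := prefix_le he n (u + 511 * 2 ^ n) s (by omega)
    rw [← hs] at a2
    have e4 : bs (u + 2 ^ n) (u + 511 * 2 ^ n) e =
        -(bs m (u + 2 ^ n) e + bs (u + 511 * 2 ^ n) m' e) := by
      rw [m3, k3, sub_self] at e1
      linarith
    have a3 := ineq8 (bs m (u + 2 ^ n) e) (bs (u + 511 * 2 ^ n) m' e)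
    have a4 : (bs (u + 2 ^ n) (u + 511 * 2 ^ n) e) ^ 4 =
        (bs m (u + 2 ^ n) e + bs (u + 511 * 2 ^ n) m' e) ^ 4 := by
      rw [e4]; ring
    unfold yf at hy
    linarith

end Pool.Agent.LVL
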