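import Pool.Agent.LVL.Stmts2

/-!
# The deterministic tree inequality
-/

open Finset

namespace Pool.Agent.LVL

namespace TR

/-- a child of the window `[b, b + 1024^(k+1))` has no point of the level set -/
def gd (S : ℕ → ℝ) (h : ℝ) (k b : ℕ) : Prop :=
  ∃ i < 1024, ∀ m, b + i * 1024 ^ k ≤ m → m < b + (i + 1) * 1024 ^ k → S m ≠ h

open Classical in
/-- the weight -/
noncomputable def wt (S : ℕ → ℝ) (h : ℝ) (k t : ℕ) : ℝ :=
  if gd S h k (t / 1024 ^ (k + 1) * 1024 ^ (k + 1)) then 1024 / 1023 else 1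

theorem wt_pos (S : ℕ → ℝ) (h : ℝ) (k t : ℕ) : 0 < wt S h k t := by
  unfold wt
  split_ifs <;> norm_num

theorem sum_split (f : ℕ → ℝ) (a n : ℕ) : ∀ N : ℕ,
    ∑ t ∈ Ico a (a + N * n), f t = ∑ i ∈ range N, ∑ t ∈ Ico (a + i * n) (a + (i + 1) * n), f t := by
  intro N
  induction N with
  | zero => simp
  | succ N ih =>
    rw [Finset.sum_range_succ, ← ih]
    symm
    apply Finset.sum_Ico_consecutive
    · omega
    · have : N * n ≤ (N + 1) * n := Nat.mul_le_mul_right _ (by omega)
      omega

open Classical in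
theorem tree_ineq (S : ℕ → ℝ) (h : ℝ) : ∀ j q : ℕ,
    ∑ t ∈ Ico (q * 1024 ^ j) ((q + 1) * 1024 ^ j),
      (if S t = h then ∏ k ∈ range j, wt S h k t else 0) ≤ (1024 : ℝ) ^ j := by
  intro j
  induction j with
  | zero =>
    intro q
    simp only [pow_zero, mul_one, range_zero, prod_empty]
    rw [Nat.Ico_succ_singleton, Finset.sum_singleton]
    split_ifs <;> norm_num
  | succ j ih =>
    intro q
    set n := 1024 ^ j with hn
    have hnpos : 0 < n := by positivity
    have e1 : q * 1024 ^ (j + 1) = q * 1024 ^ (j + 1) := rfl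
    have e2 : (q + 1) * 1024 ^ (j + 1) = q * 1024 ^ (j + 1) + 1024 * n := by
      rw [hn, pow_succ]; ring
    rw [e2, sum_split]
    set b := q * 1024 ^ (j + 1) with hb
    -- the weight is constant on the window
    have hW : ∀ t, b ≤ t → t < b + 1024 * n →
        wt S h j t = if gd S h j b then (1024 : ℝ) / 1023 else 1 := by
      intro t h1 h2
      have : t / 1024 ^ (j + 1) = q := by
        apply Nat.div_eq_of_lt_le
        · exact h1
        · rw [e2]; exact h2
      unfold wt
      rw [this]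
    set W : ℝ := if gd S h j b then (1024 : ℝ) / 1023 else 1 with hWd
    have hWpos : 0 < W := by
      rw [hWd]; split_ifs <;> norm_num
    set c : ℕ → ℝ := fun i => ∑ t ∈ Ico (b + i * n) (b + (i + 1) * n),
      (if S t = h then ∏ k ∈ range j, wt S h k t else 0) with hc
    have hsum : ∀ i ∈ range 1024, ∑ t ∈ Ico (b + i * n) (b + (i + 1) * n),
        (if S t = h then ∏ k ∈ range (j + 1), wt S h k t else 0) = W * c i := by
      intro i hi
      rw [Finset.mem_range] at hi
      rw [hc]
      simp only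
      rw [Finset.mul_sum]
      refine Finset.sum_congr rfl fun t ht => ?_
      rw [Finset.mem_Ico] at ht
      have h1 : b ≤ t := le_trans (Nat.le_add_right _ _) ht.1
      have h2 : t < b + 1024 * n := by
        have : (i + 1) * n ≤ 1024 * n := Nat.mul_le_mul_right _ (by omega)
        omega
      split_ifs with h3
      · rw [Finset.prod_range_succ, hW t h1 h2]; ring
      · ring
    rw [Finset.sum_congr rfl hsum, ← Finset.mul_sum]
    have hci : ∀ i ∈ range 1024, c i ≤ (1024 : ℝ) ^ j := by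
      intro i _
      have := ih (q * 1024 + i)
      have e3 : (q * 1024 + i) * n = b + i * n := by
        rw [hb, hn, pow_succ]; ring
      have e4 : (q * 1024 + i + 1) * n = b + (i + 1) * n := by
        rw [hb, hn, pow_succ]; ring
      rw [e3, e4] at this
      exact this
    have hpow : (0 : ℝ) < 1024 ^ j := by positivity
    by_cases hg : gd S h j b
    · obtain ⟨i0, hi0, hz⟩ := hg
      have hc0 : c i0 = 0 := by
        rw [hc]
        refine Finset.sum_eq_zero fun t ht => ?_
        rw [Finset.mem_Ico] at ht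
        rw [if_neg (hz t ht.1 ht.2)]
      have hW' : W = 1024 / 1023 := by
        rw [hWd, if_pos ⟨i0, hi0, hz⟩]
      have hle : ∑ i ∈ range 1024, c i ≤ 1023 * 1024 ^ j := by
        rw [← Finset.add_sum_erase _ _ (Finset.mem_range.2 hi0), hc0, zero_add]
        have h1 := Finset.sum_le_card_nsmul ((range 1024).erase i0) c ((1024 : ℝ) ^ j)
          (fun i hi => hci i (Finset.mem_of_mem_erase hi))
        rw [Finset.card_erase_of_mem (Finset.mem_range.2 hi0), Finset.card_range] at h1
        rw [nsmul_eq_mul] at h1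
        norm_num at h1 ⊢
        exact h1
      rw [hW', pow_succ]
      calc (1024 : ℝ) / 1023 * ∑ i ∈ range 1024, c i ≤ 1024 / 1023 * (1023 * 1024 ^ j) :=
            mul_le_mul_of_nonneg_left hle (by norm_num)
        _ = 1024 ^ j * 1024 := by ring
    · have hW' : W = 1 := by rw [hWd, if_neg hg]
      have hle : ∑ i ∈ range 1024, c i ≤ 1024 * 1024 ^ j := by
        have h1 := Finset.sum_le_card_nsmul (range 1024) c ((1024 : ℝ) ^ j) hci
        rw [Finset.card_range, nsmul_eq_mul] at h1
        norm_num at h1 ⊢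
        exact h1
      rw [hW', one_mul, pow_succ]
      linarith

theorem uk_cases (k t : ℕ) : uk k t = t / 1024 ^ (k + 1) * 1024 ^ (k + 1) ∨
    uk k t = t / 1024 ^ (k + 1) * 1024 ^ (k + 1) + 512 * 1024 ^ k := by
  unfold uk
  split_ifs
  · exact Or.inr rfl
  · exact Or.inl rfl

theorem win_le {J k t : ℕ} (hk : k < J) (ht : t < 1024 ^ J) :
    t / 1024 ^ (k + 1) * 1024 ^ (k + 1) + 1024 ^ (k + 1) ≤ 1024 ^ J := by
  obtain ⟨d, rfl⟩ : ∃ d, J = (k + 1) + d := ⟨J - (k + 1), by omega⟩
  have hpos : 0 < 1024 ^ (k + 1) := by positivity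
  have h1 : t / 1024 ^ (k + 1) < 1024 ^ d := by
    rw [Nat.div_lt_iff_lt_mul hpos, ← pow_add, add_comm d]
    exact ht
  have h2 : (t / 1024 ^ (k + 1) + 1) * 1024 ^ (k + 1) ≤ 1024 ^ d * 1024 ^ (k + 1) :=
    Nat.mul_le_mul_right _ h1
  rw [pow_add (1024 : ℕ) (k + 1) d, mul_comm (1024 ^ (k + 1)) (1024 ^ d)]
  calc _ = (t / 1024 ^ (k + 1) + 1) * 1024 ^ (k + 1) := by ring
    _ ≤ _ := h2

/-- the inverse weight is dominated by the test polynomial -/
theorem wt_inv_le (hT : StmtTest) {J : ℕ} {e S : ℕ → ℝ} (h : ℝ)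
    (he : ∀ m, e m = 1 ∨ e m = -1) (hS : ∀ m < 1024 ^ J, S (m + 1) - S m = e m) {k t : ℕ}
    (hk : k < J) (ht : t < 1024 ^ J) : (wt S h k t)⁻¹ ≤ 1 - Rf (10 * k) (uk k t) e / 1024 := by
  have hpow : (2 : ℕ) ^ (10 * k) = 1024 ^ k := by
    rw [pow_mul]; norm_num
  have hwin := win_le hk ht
  set b := t / 1024 ^ (k + 1) * 1024 ^ (k + 1) with hb
  have hbn : 1024 ^ (k + 1) = 1024 * 1024 ^ k := by rw [pow_succ, mul_comm]
  rw [hbn] at hwin
  have hu : uk k t = b ∨ uk k t = b + 512 * 1024 ^ k := uk_cases k t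
  obtain ⟨t1, t2⟩ := hT (10 * k) (uk k t) e S he (by
    intro m h1 h2
    apply hS
    rw [hpow] at h2
    rcases hu with hu | hu <;> rw [hu] at h2 <;> omega)
  rw [hpow] at t2
  by_cases hR : 0 < Rf (10 * k) (uk k t) e
  · have hg : gd S h k b := by
      rcases t2 hR h with hz | hz
      · rcases hu with hu | hu
        · refine ⟨0, by norm_num, fun m h1 h2 => hz m ?_ ?_⟩
          · rw [hu]; omega
          · rw [hu]; omega
        · refine ⟨512, by norm_num, fun m h1 h2 => hz m ?_ ?_⟩
          · rw [hu]; omega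
          · rw [hu]; omega
      · rcases hu with hu | hu
        · refine ⟨511, by norm_num, fun m h1 h2 => hz m ?_ ?_⟩
          · rw [hu]; omega
          · rw [hu]; omega
        · refine ⟨1023, by norm_num, fun m h1 h2 => hz m ?_ ?_⟩
          · rw [hu]; omega
          · rw [hu]; omega
    have hw : wt S h k t = 1024 / 1023 := by
      unfold wt
      rw [if_pos hg]
    rw [hw]
    have : ((1024 : ℝ) / 1023)⁻¹ = 1 - 1 / 1024 := by norm_num
    rw [this]
    linarith
  · push Not at hR
    have h1 : (wt S h k t)⁻¹ ≤ 1 := by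
      unfold wt
      split_ifs <;> norm_num
    linarith

end TR

open TR

theorem tree (hT : StmtTest) : StmtTree := by
  classical
  intro J e S h he hS l hl
  have h1 := tree_ineq S h J 0
  rw [zero_mul, zero_add, one_mul] at h1
  have hrange : Ico 0 (1024 ^ J) = range (1024 ^ J) := by
    rw [Finset.range_eq_Ico]
  rw [hrange] at h1
  have hcard : (((range (1024 ^ J)).filter (fun t => S t = h)).card : ℝ) =
      ∑ t ∈ range (1024 ^ J), (if S t = h then (1 : ℝ) else 0) := by
    rw [Finset.sum_boole]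
  rw [hcard]
  have hpt : ∀ t ∈ range (1024 ^ J), (if S t = h then (1 : ℝ) else 0) ≤
      l * (if S t = h then ∏ k ∈ range J, wt S h k t else 0) +
        (1 / (4 * l)) * ∏ k ∈ range J, (1 - Rf (10 * k) (uk k t) e / 1024) := by
    intro t ht
    rw [Finset.mem_range] at ht
    have hx : 0 < ∏ k ∈ range J, wt S h k t := Finset.prod_pos fun k _ => wt_pos S h k t
    have hinv : (∏ k ∈ range J, wt S h k t)⁻¹ ≤
        ∏ k ∈ range J, (1 - Rf (10 * k) (uk k t) e / 1024) := by
      rw [← Finset.prod_inv_distrib]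
      refine Finset.prod_le_prod (fun k _ => (inv_pos.2 (wt_pos S h k t)).le) fun k hk => ?_
      exact wt_inv_le hT h he hS (Finset.mem_range.1 hk) ht
    have hinv0 : 0 < (∏ k ∈ range J, wt S h k t)⁻¹ := inv_pos.2 hx
    have hl4 : 0 < 1 / (4 * l) := by positivity
    split_ifs with hSt
    · set x := ∏ k ∈ range J, wt S h k t with hxd
      have h2 : 1 ≤ l * x + 1 / (4 * l) * x⁻¹ := by
        have h3 : l * x + 1 / (4 * l) * x⁻¹ - 1 = (2 * l * x - 1) ^ 2 / (4 * l * x) := by
          field_simp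
          ring
        have h4 : 0 ≤ (2 * l * x - 1) ^ 2 / (4 * l * x) := by positivity
        linarith
      have h5 := mul_le_mul_of_nonneg_left hinv hl4.le
      linarith
    · have h5 := mul_le_mul_of_nonneg_left hinv hl4.le
      have h6 : 0 < 1 / (4 * l) * (∏ k ∈ range J, wt S h k t)⁻¹ := mul_pos hl4 hinv0
      linarith
  refine (Finset.sum_le_sum hpt).trans ?_
  rw [Finset.sum_add_distrib, ← Finset.mul_sum, ← Finset.mul_sum]
  have h7 := mul_le_mul_of_nonneg_left h1 hl.le
  linarith

end Pool.Agent.LVL
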