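import Pool.Agent.LVL.Defs

/-!
# Module LVL_WeilA: the non-vanishing lemma and the derivatives of the auxiliary polynomial
-/

open Finset Polynomial

namespace Pool.Agent.LVL

/-! ## Part 1: the non-vanishing lemma -/

section nonvanish

variable {F : Type} [Field F]

/-- `f r^2 = c s^2` with `f` squarefree of positive degree forces `s = 0`. -/
lemma WeilA_descent {f : F[X]} (hf : Squarefree f) (hd : 1 ≤ f.natDegree) {c : F} (hc : c ≠ 0) :
    ∀ (n : ℕ) (r s : F[X]), s.natDegree ≤ n → f * r ^ 2 = C c * s ^ 2 → s = 0 := by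
  have hf0 : f ≠ 0 := by
    rintro rfl
    simp at hd
  have hcu : IsUnit (C c : F[X]) := isUnit_C.2 (isUnit_iff_ne_zero.2 hc)
  intro n
  induction n using Nat.strong_induction_on with
  | _ n ih =>
    intro r s hs h
    by_contra hs0
    have h1 : f ∣ s ^ 2 := by
      have : f ∣ C c * s ^ 2 := ⟨r ^ 2, h.symm⟩
      exact (hcu.dvd_mul_left).1 this
    have h2 : f ∣ s := (hf.dvd_pow_iff_dvd two_ne_zero).1 h1
    obtain ⟨t, rfl⟩ := h2
    have ht0 : t ≠ 0 := by
      rintro rfl
      exact hs0 (mul_zero _)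
    have h3 : r ^ 2 = C c * (f * t ^ 2) := by
      have : f * r ^ 2 = f * (C c * (f * t ^ 2)) := by rw [h]; ring
      exact mul_left_cancel₀ hf0 this
    have h4 : f ∣ r ^ 2 := ⟨C c * t ^ 2, by rw [h3]; ring⟩
    have h5 : f ∣ r := (hf.dvd_pow_iff_dvd two_ne_zero).1 h4
    obtain ⟨u, rfl⟩ := h5
    have h6 : f * u ^ 2 = C c * t ^ 2 := by
      have : f * (f * u ^ 2) = f * (C c * t ^ 2) := by
        calc f * (f * u ^ 2) = (f * u) ^ 2 := by ring
          _ = C c * (f * t ^ 2) := h3
          _ = f * (C c * t ^ 2) := by ring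
      exact mul_left_cancel₀ hf0 this
    have hlt : t.natDegree < n := by
      rw [natDegree_mul hf0 ht0] at hs
      omega
    exact ht0 (ih t.natDegree hlt u t le_rfl h6)

end nonvanish

lemma WeilA_key (p : ℕ) [Fact p.Prime] (f : (ZMod p)[X]) (c d : ℕ) (hp : p = 2 * c + 1)
    (hf : Squarefree f) (hd : 1 ≤ f.natDegree) (h0 : f.eval 0 ≠ 0) (hdp : 2 * d + f.natDegree ≤ p)
    (r s : (ZMod p)[X]) (hr : r.degree < (d : WithBot ℕ)) (hs : s.degree < (d : WithBot ℕ))
    (h : (X : (ZMod p)[X]) ^ p ∣ r + s * f ^ c) : r = 0 ∧ s = 0 := by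
  have hf0 : f ≠ 0 := by
    rintro rfl
    simp at hd
  -- `X^p` divides `f^p - f(0)`
  have h1 : (X : (ZMod p)[X]) ^ p ∣ f ^ p - C (f.eval 0) := by
    rw [← ZMod.expand_card f]
    have h2 : (X : (ZMod p)[X]) ∣ f - C (f.eval 0) := by
      have := X_dvd_sub_C (p := f)
      rwa [coeff_zero_eq_eval_zero] at this
    obtain ⟨g, hg⟩ := h2
    refine ⟨expand (ZMod p) p g, ?_⟩
    have h3 := congrArg (expand (ZMod p) p) hg
    rw [map_sub, map_mul, expand_X, expand_C] at h3
    exact h3
  -- `X^p` divides `f r^2 - f(0) s^2`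
  have h2 : (X : (ZMod p)[X]) ^ p ∣ f * r ^ 2 - C (f.eval 0) * s ^ 2 := by
    have e1 : f * r ^ 2 - C (f.eval 0) * s ^ 2 =
        (r + s * f ^ c) * (f * (r - s * f ^ c)) + s ^ 2 * (f ^ p - C (f.eval 0)) := by
      have hfp : f ^ p = f * (f ^ c) ^ 2 := by
        calc f ^ p = f ^ (2 * c + 1) := congrArg (fun n => f ^ n) hp
          _ = f * (f ^ c) ^ 2 := by ring
      rw [hfp]
      ring
    rw [e1]
    exact dvd_add (Dvd.dvd.mul_right h _) (Dvd.dvd.mul_left h1 _)
  -- degrees
  have hnat : ∀ q : (ZMod p)[X], q.degree < (d : WithBot ℕ) → q ≠ 0 → q.natDegree < d :=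
    fun q hq hq0 => (natDegree_lt_iff_degree_lt hq0).2 hq
  have hdeg : ∀ (g q : (ZMod p)[X]), g.natDegree ≤ f.natDegree → q.degree < (d : WithBot ℕ) →
      (g * q ^ 2).natDegree < p := by
    intro g q hg hq
    have hppos : 0 < p := (Fact.out : p.Prime).pos
    by_cases hq0 : q = 0
    · rw [hq0]
      simpa using hppos
    · have h3 := hnat q hq hq0
      have h4 : (g * q ^ 2).natDegree ≤ g.natDegree + (q ^ 2).natDegree := natDegree_mul_le
      have h5 : (q ^ 2).natDegree ≤ 2 * q.natDegree := natDegree_pow_le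
      omega
  have h3 : f * r ^ 2 - C (f.eval 0) * s ^ 2 = 0 := by
    by_contra hne
    have h4 := natDegree_le_of_dvd h2 hne
    rw [natDegree_X_pow] at h4
    have h5 : (f * r ^ 2 - C (f.eval 0) * s ^ 2).natDegree ≤
        max (f * r ^ 2).natDegree (C (f.eval 0) * s ^ 2).natDegree := natDegree_sub_le _ _
    have h6 := hdeg f r le_rfl hr
    have h7 := hdeg (C (f.eval 0)) s (by rw [natDegree_C]; exact Nat.zero_le _) hs
    have h8 := max_lt h6 h7
    omega
  have h4 : f * r ^ 2 = C (f.eval 0) * s ^ 2 := sub_eq_zero.1 h3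
  have hs0 : s = 0 := WeilA_descent hf hd h0 s.natDegree r s le_rfl h4
  refine ⟨?_, hs0⟩
  rw [hs0] at h4
  have h5 : f * r ^ 2 = 0 := by rw [h4]; ring
  rcases mul_eq_zero.1 h5 with h6 | h6
  · exact absurd h6 hf0
  · exact pow_eq_zero_iff two_ne_zero |>.1 h6

theorem nonvanish : StmtNonvanish := by
  intro p _ f c d J hp hf hd h0 hdp
  induction J with
  | zero =>
    intro r s _ _ _ j hj
    exact absurd hj (Nat.not_lt_zero _)
  | succ J ih =>
    intro r s hr hs h
    rw [sum_range_succ'] at h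
    have hX : (X : (ZMod p)[X]) ^ p ≠ 0 := pow_ne_zero _ X_ne_zero
    have h1 : ∑ j ∈ range J, (r (j + 1) + s (j + 1) * f ^ c) * X ^ (p * (j + 1)) =
        X ^ p * ∑ j ∈ range J, (r (j + 1) + s (j + 1) * f ^ c) * X ^ (p * j) := by
      rw [mul_sum]
      refine sum_congr rfl fun j _ => ?_
      rw [mul_add, pow_add, mul_one]
      ring
    rw [h1, mul_zero, pow_zero, mul_one] at h
    have h2 : (X : (ZMod p)[X]) ^ p ∣ r 0 + s 0 * f ^ c := by
      refine ⟨-∑ j ∈ range J, (r (j + 1) + s (j + 1) * f ^ c) * X ^ (p * j), ?_⟩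
      rw [mul_neg, eq_neg_iff_add_eq_zero, add_comm]
      exact h
    obtain ⟨hr0, hs0⟩ := WeilA_key p f c d hp hf hd h0 hdp (r 0) (s 0) (hr 0) (hs 0) h2
    rw [hr0, hs0, zero_mul, add_zero, add_zero] at h
    have h3 : ∑ j ∈ range J, (r (j + 1) + s (j + 1) * f ^ c) * X ^ (p * j) = 0 :=
      (mul_eq_zero.1 h).resolve_left hX
    have h4 := ih (fun j => r (j + 1)) (fun j => s (j + 1)) (fun j => hr _) (fun j => hs _) h3
    intro j hj
    cases j with
    | zero => exact ⟨hr0, hs0⟩
    | succ j => exact h4 j (by omega)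

/-! ## Part 2: the derivatives -/

section deriv

variable {F : Type} [Field F]

lemma WeilA_deg_mul {a b : F[X]} {m n : ℕ} (ha : a.natDegree ≤ m) (hb : b.degree < (n : WithBot ℕ)) :
    (a * b).degree < ((m + n : ℕ) : WithBot ℕ) := by
  by_cases hb0 : b = 0
  · rw [hb0, mul_zero, degree_zero]
    exact WithBot.bot_lt_coe _
  · have h1 : b.natDegree < n := (natDegree_lt_iff_degree_lt hb0).2 hb
    have h2 : (a * b).natDegree ≤ a.natDegree + b.natDegree := natDegree_mul_le
    refine lt_of_le_of_lt degree_le_natDegree ?_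
    have h3 : (a * b).natDegree < m + n := by omega
    exact_mod_cast h3

lemma WeilA_DR_add (f : F[X]) (e k : ℕ) (r r' : F[X]) :
    DR f e k (r + r') = DR f e k r + DR f e k r' := by
  induction k with
  | zero => rfl
  | succ k ih =>
    show ((e : F[X]) - (k : F[X])) * derivative f * DR f e k (r + r')
      + f * derivative (DR f e k (r + r')) =
      (((e : F[X]) - (k : F[X])) * derivative f * DR f e k r + f * derivative (DR f e k r)) +
      (((e : F[X]) - (k : F[X])) * derivative f * DR f e k r' + f * derivative (DR f e k r'))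
    rw [ih, derivative_add]
    ring

lemma WeilA_DR_smul (f : F[X]) (e k : ℕ) (x : F) (r : F[X]) :
    DR f e k (x • r) = x • DR f e k r := by
  induction k with
  | zero => rfl
  | succ k ih =>
    show ((e : F[X]) - (k : F[X])) * derivative f * DR f e k (x • r)
      + f * derivative (DR f e k (x • r)) =
      x • (((e : F[X]) - (k : F[X])) * derivative f * DR f e k r + f * derivative (DR f e k r))
    rw [ih, derivative_smul, smul_add, mul_smul_comm, mul_smul_comm]

lemma WeilA_DR_deg (f : F[X]) (e k : ℕ) (r : F[X]) (d : ℕ) (hr : r.degree < (d : WithBot ℕ)) :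
    (DR f e k r).degree < ((d + k * f.natDegree : ℕ) : WithBot ℕ) := by
  induction k with
  | zero =>
    rw [zero_mul, add_zero]
    exact hr
  | succ k ih =>
    show (((e : F[X]) - (k : F[X])) * derivative f * DR f e k r
      + f * derivative (DR f e k r)).degree < _
    have e1 : d + (k + 1) * f.natDegree = f.natDegree + (d + k * f.natDegree) := by ring
    rw [e1]
    refine lt_of_le_of_lt (degree_add_le _ _) (max_lt ?_ ?_)
    · refine WeilA_deg_mul ?_ ih
      have h1 : (((e : F[X]) - (k : F[X])) * derivative f).natDegree ≤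
          ((e : F[X]) - (k : F[X])).natDegree + (derivative f).natDegree := natDegree_mul_le
      have h2 : ((e : F[X]) - (k : F[X])).natDegree ≤ 0 := by
        refine le_trans (natDegree_sub_le _ _) ?_
        rw [natDegree_natCast, natDegree_natCast]
        exact le_of_eq (max_self 0)
      have h3 : (derivative f).natDegree ≤ f.natDegree - 1 := natDegree_derivative_le f
      omega
    · exact WeilA_deg_mul le_rfl (lt_of_le_of_lt degree_derivative_le ih)

end deriv

lemma WeilA_DR_iter (p : ℕ) [Fact p.Prime] (f : (ZMod p)[X]) (e : ℕ) (r : (ZMod p)[X]) (j : ℕ) :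
    ∀ k : ℕ, k ≤ e →
      (derivative^[k]) (f ^ e * r * X ^ (p * j)) = f ^ (e - k) * DR f e k r * X ^ (p * j) := by
  intro k
  induction k with
  | zero =>
    intro _
    rfl
  | succ k ih =>
    intro hk
    rw [Function.iterate_succ_apply', ih (by omega)]
    obtain ⟨m, hm⟩ : ∃ m, e - k = m + 1 := ⟨e - k - 1, by omega⟩
    have hm' : e - (k + 1) = m := by omega
    have hcast : (e : (ZMod p)[X]) - (k : (ZMod p)[X]) = ((m + 1 : ℕ) : (ZMod p)[X]) := by
      have : e = k + (m + 1) := by omega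
      rw [this]
      push_cast
      ring
    have hX : derivative ((X : (ZMod p)[X]) ^ (p * j)) = 0 := by
      rw [derivative_X_pow]
      have : ((p * j : ℕ) : ZMod p) = 0 := by
        rw [Nat.cast_mul, ZMod.natCast_self, zero_mul]
      rw [this, C_0, zero_mul]
    show _ = f ^ (e - (k + 1)) * (((e : (ZMod p)[X]) - (k : (ZMod p)[X])) * derivative f * DR f e k r
      + f * derivative (DR f e k r)) * X ^ (p * j)
    rw [derivative_mul, hX, mul_zero, add_zero, hm, hm', hcast, derivative_mul, derivative_pow]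
    rw [Nat.add_sub_cancel]
    have : (C (((m + 1 : ℕ) : ℕ) : ZMod p)) = ((m + 1 : ℕ) : (ZMod p)[X]) := by
      rw [map_natCast]
    rw [this]
    ring

theorem deriv : StmtDeriv := by
  intro p _ f e k
  exact ⟨fun r j hk => WeilA_DR_iter p f e r j k hk, fun r d hr => WeilA_DR_deg f e k r d hr,
    fun r r' => WeilA_DR_add f e k r r', fun x r => WeilA_DR_smul f e k x r⟩

end Pool.Agent.LVL
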