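import Pool.Agent.LVL.Defs

/-!
# Module LVL_WeilB: the Weil bound by Stepanov's method
-/

open Finset Polynomial

namespace Pool.Agent.LVL

namespace WeilB

variable {p : ℕ} [Fact p.Prime]

/-- The polynomial with the coefficients `v`. -/
noncomputable def pol {F : Type} [Field F] {d : ℕ} (v : Fin d → F) : F[X] :=
  ∑ i : Fin d, C (v i) * X ^ (i : ℕ)

theorem pol_degree {F : Type} [Field F] {d : ℕ} (v : Fin d → F) :
    (pol v).degree < (d : WithBot ℕ) := degree_sum_fin_lt v

theorem pol_add {F : Type} [Field F] {d : ℕ} (v w : Fin d → F) : pol (v + w) = pol v + pol w := by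
  unfold pol
  rw [← Finset.sum_add_distrib]
  refine Finset.sum_congr rfl fun i _ => ?_
  rw [Pi.add_apply, C_add, add_mul]

theorem pol_smul {F : Type} [Field F] {d : ℕ} (a : F) (v : Fin d → F) :
    pol (a • v) = a • pol v := by
  unfold pol
  rw [Finset.smul_sum]
  refine Finset.sum_congr rfl fun i _ => ?_
  rw [Pi.smul_apply, smul_eq_mul, C_mul, smul_eq_C_mul, mul_assoc]

theorem pol_coeff {F : Type} [Field F] {d : ℕ} (v : Fin d → F) (i : Fin d) :
    (pol v).coeff i = v i := by
  unfold pol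
  rw [finsetSum_coeff, Finset.sum_eq_single i]
  · rw [coeff_C_mul, coeff_X_pow, if_pos rfl, mul_one]
  · intro j _ hj
    rw [coeff_C_mul, coeff_X_pow, if_neg, mul_zero]
    intro h
    exact hj (Fin.ext h.symm)
  · intro h
    exact absurd (Finset.mem_univ i) h

/-- The family of polynomials with the coefficients `v`. -/
noncomputable def fam {F : Type} [Field F] {J d : ℕ} (v : Fin J × Fin d → F) (j : ℕ) : F[X] :=
  if h : j < J then pol (fun i => v (⟨j, h⟩, i)) else 0

theorem fam_degree {F : Type} [Field F] {J d : ℕ} (v : Fin J × Fin d → F) (j : ℕ) :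
    (fam v j).degree < (d : WithBot ℕ) := by
  unfold fam
  split_ifs with h
  · exact pol_degree _
  · rw [degree_zero]
    exact WithBot.bot_lt_coe d

theorem fam_add {F : Type} [Field F] {J d : ℕ} (v w : Fin J × Fin d → F) (j : ℕ) :
    fam (v + w) j = fam v j + fam w j := by
  unfold fam
  split_ifs with h
  · exact pol_add _ _
  · rw [add_zero]

theorem fam_smul {F : Type} [Field F] {J d : ℕ} (a : F) (v : Fin J × Fin d → F) (j : ℕ) :
    fam (a • v) j = a • fam v j := by
  unfold fam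
  split_ifs with h
  · exact pol_smul _ _
  · rw [smul_zero]

theorem fam_eq_zero {F : Type} [Field F] {J d : ℕ} (v : Fin J × Fin d → F)
    (h : ∀ j < J, fam v j = 0) : v = 0 := by
  ext ⟨j, i⟩
  have h1 := h j.1 j.2
  unfold fam at h1
  rw [dif_pos j.2] at h1
  have h2 := pol_coeff (fun i => v (⟨j.1, j.2⟩, i)) i
  rw [h1, coeff_zero] at h2
  exact h2.symm

/-- The polynomials `P_k`. -/
noncomputable def PP (f : (ZMod p)[X]) (c l J d : ℕ) (a0 : ZMod p) (k : ℕ)
    (r s : Fin J × Fin d → ZMod p) : (ZMod p)[X] :=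
  ∑ j ∈ range J, (DR f l k (fam r j) + a0 • DR f (l + c) k (fam s j)) * X ^ j

theorem PP_add (hD : StmtDeriv) (f : (ZMod p)[X]) (c l J d : ℕ) (a0 : ZMod p) (k : ℕ)
    (r s r' s' : Fin J × Fin d → ZMod p) :
    PP f c l J d a0 k (r + r') (s + s') = PP f c l J d a0 k r s + PP f c l J d a0 k r' s' := by
  unfold PP
  rw [← Finset.sum_add_distrib]
  refine Finset.sum_congr rfl fun j _ => ?_
  rw [fam_add, fam_add, (hD p f l k).2.2.1, (hD p f (l + c) k).2.2.1, smul_add]
  ring

theorem PP_smul (hD : StmtDeriv) (f : (ZMod p)[X]) (c l J d : ℕ) (a0 : ZMod p) (k : ℕ)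
    (x : ZMod p) (r s : Fin J × Fin d → ZMod p) :
    PP f c l J d a0 k (x • r) (x • s) = x • PP f c l J d a0 k r s := by
  unfold PP
  rw [Finset.smul_sum]
  refine Finset.sum_congr rfl fun j _ => ?_
  rw [fam_smul, fam_smul, (hD p f l k).2.2.2, (hD p f (l + c) k).2.2.2, smul_comm a0 x,
    ← smul_add, smul_mul_assoc]

theorem PP_degree (hD : StmtDeriv) (f : (ZMod p)[X]) (c l J d : ℕ) (a0 : ZMod p) (k : ℕ)
    (hk : k < l) (r s : Fin J × Fin d → ZMod p) :
    (PP f c l J d a0 k r s).degree < ((d + J + l * f.natDegree : ℕ) : WithBot ℕ) := by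
  unfold PP
  by_cases hJ : J = 0
  · subst hJ
    rw [Finset.range_zero, Finset.sum_empty, degree_zero]
    exact WithBot.bot_lt_coe _
  refine lt_of_le_of_lt (degree_sum_le _ _) ?_
  rw [Finset.sup_lt_iff (WithBot.bot_lt_coe _)]
  intro j hj
  rw [Finset.mem_range] at hj
  have h1 := (hD p f l k).2.1 (fam r j) d (fam_degree r j)
  have h2 := (hD p f (l + c) k).2.1 (fam s j) d (fam_degree s j)
  have h3 : (DR f l k (fam r j) + a0 • DR f (l + c) k (fam s j)).degree <
      ((d + k * f.natDegree : ℕ) : WithBot ℕ) := by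
    refine lt_of_le_of_lt (degree_add_le _ _) (max_lt h1 (lt_of_le_of_lt ?_ h2))
    exact degree_smul_le _ _
  have h4 : ((DR f l k (fam r j) + a0 • DR f (l + c) k (fam s j)) * X ^ j).degree <
      ((d + k * f.natDegree : ℕ) : WithBot ℕ) + (j : WithBot ℕ) := by
    rw [degree_mul, degree_X_pow]
    exact WithBot.add_lt_add_right (WithBot.natCast_ne_bot j) h3
  refine lt_of_lt_of_le h4 ?_
  have h5 : k * f.natDegree ≤ l * f.natDegree := Nat.mul_le_mul_right _ hk.le
  have h6 : d + k * f.natDegree + j ≤ d + J + l * f.natDegree := by omega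
  exact_mod_cast h6

/-- The linear map of Stepanov's method. -/
noncomputable def Phi (hD : StmtDeriv) (f : (ZMod p)[X]) (c l J d D : ℕ) (a0 : ZMod p) :
    ((Fin 2 × (Fin J × Fin d)) → ZMod p) →ₗ[ZMod p] ((Fin l × Fin D) → ZMod p) where
  toFun v := fun q => (PP f c l J d a0 q.1 (fun t => v (0, t)) (fun t => v (1, t))).coeff q.2
  map_add' v w := by
    ext q
    have := PP_add hD f c l J d a0 q.1 (fun t => v (0, t)) (fun t => v (1, t))
      (fun t => w (0, t)) (fun t => w (1, t))
    simp only [Pi.add_apply]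
    rw [← coeff_add, ← this]
    rfl
  map_smul' x v := by
    ext q
    have := PP_smul hD f c l J d a0 q.1 x (fun t => v (0, t)) (fun t => v (1, t))
    simp only [RingHom.id_apply, Pi.smul_apply, smul_eq_mul]
    rw [← smul_eq_mul, ← coeff_smul, ← this]
    rfl

theorem exists_kernel (hD : StmtDeriv) (f : (ZMod p)[X]) (c l J d : ℕ) (a0 : ZMod p)
    (hdim : l * (d + J + l * f.natDegree) < 2 * (J * d)) :
    ∃ r s : Fin J × Fin d → ZMod p, (r ≠ 0 ∨ s ≠ 0) ∧
      ∀ k < l, PP f c l J d a0 k r s = 0 := by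
  have hfin : Module.finrank (ZMod p) ((Fin l × Fin (d + J + l * f.natDegree)) → ZMod p) <
      Module.finrank (ZMod p) ((Fin 2 × (Fin J × Fin d)) → ZMod p) := by
    rw [Module.finrank_fintype_fun_eq_card, Module.finrank_fintype_fun_eq_card]
    simp only [Fintype.card_prod, Fintype.card_fin]
    exact hdim
  have hker := LinearMap.ker_ne_bot_of_finrank_lt
    (f := Phi hD f c l J d (d + J + l * f.natDegree) a0) hfin
  obtain ⟨v, hv, hv0⟩ := Submodule.exists_mem_ne_zero_of_ne_bot hker
  rw [LinearMap.mem_ker] at hv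
  refine ⟨fun t => v (0, t), fun t => v (1, t), ?_, ?_⟩
  · by_contra hcon
    push Not at hcon
    apply hv0
    ext ⟨b, t⟩
    fin_cases b
    · exact congrFun hcon.1 t
    · exact congrFun hcon.2 t
  · intro k hk
    have hdeg := PP_degree hD f c l J d a0 k hk (fun t => v (0, t)) (fun t => v (1, t))
    ext i
    rw [coeff_zero]
    by_cases hi : i < d + J + l * f.natDegree
    · exact congrFun hv (⟨k, hk⟩, ⟨i, hi⟩)
    · apply coeff_eq_zero_of_degree_lt
      refine lt_of_lt_of_le hdeg ?_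
      push Not at hi
      exact_mod_cast hi

/-- Stepanov's bound. -/
theorem stepanov (hN : StmtNonvanish) (hD : StmtDeriv) (f : (ZMod p)[X]) (c l J d : ℕ)
    (hp : p = 2 * c + 1) (hsq : Squarefree f) (hdeg : 1 ≤ f.natDegree) (h0 : f.eval 0 ≠ 0)
    (h2d : 2 * d + f.natDegree ≤ p) (hl : 1 ≤ l) (hlp : l ≤ p) (hJ : 1 ≤ J)
    (hdim : l * (d + J + l * f.natDegree) < 2 * (J * d)) (a0 : ZMod p) :
    l * (Finset.univ.filter fun x : ZMod p => (f.eval x) ^ c = a0).card ≤
      (l + c) * f.natDegree + d + p * (J - 1) := by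
  classical
  obtain ⟨r, s, hne, hPP⟩ := exists_kernel hD f c l J d a0 hdim
  set Q : (ZMod p)[X] := ∑ j ∈ range J, (fam r j + fam s j * f ^ c) * X ^ (p * j) with hQ
  have hQ0 : Q ≠ 0 := by
    intro h
    have := hN p f c d J hp hsq hdeg h0 h2d (fam r) (fam s) (fam_degree r) (fam_degree s) h
    rcases hne with h1 | h1
    · exact h1 (fam_eq_zero r fun j hj => (this j hj).1)
    · exact h1 (fam_eq_zero s fun j hj => (this j hj).2)
  have hf0 : f ≠ 0 := hsq.ne_zero
  set R : (ZMod p)[X] := f ^ l * Q with hR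
  have hR0 : R ≠ 0 := mul_ne_zero (pow_ne_zero _ hf0) hQ0
  have hRsum : R = ∑ j ∈ range J, (f ^ l * fam r j * X ^ (p * j) +
      f ^ (l + c) * fam s j * X ^ (p * j)) := by
    rw [hR, hQ, Finset.mul_sum]
    refine Finset.sum_congr rfl fun j _ => ?_
    rw [pow_add]
    ring
  -- the degree
  have hRdeg : R.natDegree ≤ (l + c) * f.natDegree + d + p * (J - 1) := by
    rw [hRsum]
    apply natDegree_sum_le_of_forall_le
    intro j hj
    rw [Finset.mem_range] at hj
    have hr : (fam r j).natDegree ≤ d := natDegree_le_of_degree_le (fam_degree r j).le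
    have hs : (fam s j).natDegree ≤ d := natDegree_le_of_degree_le (fam_degree s j).le
    have hjJ : p * j ≤ p * (J - 1) := Nat.mul_le_mul_left _ (by omega)
    refine (natDegree_add_le _ _).trans (max_le ?_ ?_)
    · refine natDegree_mul_le.trans ?_
      rw [natDegree_X_pow]
      refine Nat.add_le_add (natDegree_mul_le.trans ?_) hjJ
      refine Nat.add_le_add (natDegree_pow_le.trans ?_) hr
      exact Nat.mul_le_mul_right _ (Nat.le_add_right _ _)
    · refine natDegree_mul_le.trans ?_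
      rw [natDegree_X_pow]
      refine Nat.add_le_add (natDegree_mul_le.trans ?_) hjJ
      exact Nat.add_le_add natDegree_pow_le hs
  -- the multiplicities
  have hmult : ∀ x : ZMod p, (f.eval x) ^ c = a0 → l ≤ rootMultiplicity x R := by
    intro x hx
    have hkey : ∀ k ≤ l - 1, ((⇑derivative)^[k] R).IsRoot x := by
      intro k hk
      have hkl : k < l := by omega
      have h1 : (⇑derivative)^[k] R = ∑ j ∈ range J,
          (f ^ (l - k) * DR f l k (fam r j) * X ^ (p * j) +
            f ^ (l + c - k) * DR f (l + c) k (fam s j) * X ^ (p * j)) := by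
        rw [hRsum, iterate_derivative_sum]
        refine Finset.sum_congr rfl fun j _ => ?_
        rw [iterate_map_add, (hD p f l k).1 (fam r j) j hkl.le,
          (hD p f (l + c) k).1 (fam s j) j (by omega)]
      have h2 : l + c - k = (l - k) + c := by omega
      rw [IsRoot.def, h1, eval_finsetSum]
      have h3 : ∀ j ∈ range J, eval x (f ^ (l - k) * DR f l k (fam r j) * X ^ (p * j) +
            f ^ (l + c - k) * DR f (l + c) k (fam s j) * X ^ (p * j)) =
          (eval x f) ^ (l - k) * eval x ((DR f l k (fam r j) +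
            a0 • DR f (l + c) k (fam s j)) * X ^ j) := by
        intro j _
        have h4 : x ^ (p * j) = x ^ j := by
          rw [pow_mul, ZMod.pow_card]
        rw [h2]
        simp only [eval_add, eval_mul, eval_pow, eval_X, eval_smul, smul_eq_mul, pow_add]
        rw [h4, hx]
        ring
      rw [Finset.sum_congr rfl h3, ← Finset.mul_sum, ← eval_finsetSum]
      have h5 := hPP k hkl
      unfold PP at h5
      rw [h5, eval_zero, mul_zero]
    have hfac : ((l - 1).factorial : ZMod p) ∈ nonZeroDivisors (ZMod p) := by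
      apply mem_nonZeroDivisors_of_ne_zero
      intro h
      rw [ZMod.natCast_eq_zero_iff, (Fact.out : p.Prime).dvd_factorial] at h
      omega
    have := lt_rootMultiplicity_of_isRoot_iterate_derivative_of_mem_nonZeroDivisors hR0 hkey hfac
    omega
  -- count
  set Z := Finset.univ.filter fun x : ZMod p => (f.eval x) ^ c = a0 with hZ
  have hle : l • Z.val ≤ R.roots := by
    rw [Multiset.le_iff_count]
    intro x
    rw [Multiset.count_nsmul, count_roots]
    by_cases hxZ : x ∈ Z
    · have h1 : Multiset.count x Z.val = 1 :=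
        Multiset.count_eq_one_of_mem Z.nodup hxZ
      rw [h1, mul_one]
      rw [hZ, Finset.mem_filter] at hxZ
      exact hmult x hxZ.2
    · have h1 : Multiset.count x Z.val = 0 := Multiset.count_eq_zero_of_notMem hxZ
      rw [h1, mul_zero]
      exact Nat.zero_le _
  have hcard := Multiset.card_le_card hle
  rw [Multiset.card_nsmul] at hcard
  calc l * Z.card ≤ R.roots.card := hcard
    _ ≤ R.natDegree := card_roots' R
    _ ≤ _ := hRdeg

/-- Numerical facts: the dimension count. -/
theorem dim_count (P l d J m : ℕ) (hm : 1 ≤ m) (hl2 : l ^ 2 ≤ P) (hl20 : 20 * m ≤ l)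
    (hd : P ≤ 2 * d + m + 1) (hd' : 2 * d + m ≤ P) (hJ : l + 4 * m + 4 ≤ 2 * J)
    (hJ' : 2 * J ≤ l + 1 + 4 * m + 4) : l * (d + J + l * m) < 2 * (J * d) := by
  have e1 : (1 : ℝ) ≤ m := by exact_mod_cast hm
  have e2 : (l : ℝ) ^ 2 ≤ P := by exact_mod_cast hl2
  have e3 : 20 * (m : ℝ) ≤ l := by exact_mod_cast hl20
  have e4 : (P : ℝ) ≤ 2 * d + m + 1 := by exact_mod_cast hd
  have e5 : 2 * (d : ℝ) + m ≤ P := by exact_mod_cast hd'
  have e6 : (l : ℝ) + 4 * m + 4 ≤ 2 * J := by exact_mod_cast hJ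
  have e7 : 2 * (J : ℝ) ≤ l + 1 + 4 * m + 4 := by exact_mod_cast hJ'
  have hJb : (J : ℝ) ≤ 4 / 5 * l := by linarith
  have hP0 : (0 : ℝ) ≤ P := Nat.cast_nonneg P
  have hJ0 : (0 : ℝ) ≤ J := Nat.cast_nonneg J
  have hl0 : (0 : ℝ) < l := by linarith
  -- `2 J d ≥ J (P - m - 1)`
  have f1 : (J : ℝ) * (P - m - 1) ≤ J * (2 * d) := mul_le_mul_of_nonneg_left (by linarith) hJ0
  -- `J P ≥ (l / 2 + 2 m + 2) P`
  have f2 : ((l : ℝ) / 2 + 2 * m + 2) * P ≤ J * P := mul_le_mul_of_nonneg_right (by linarith) hP0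
  -- `l d ≤ l P / 2`
  have f3 : (l : ℝ) * (2 * d) ≤ l * P := mul_le_mul_of_nonneg_left (by linarith) hl0.le
  -- `l^2 m ≤ P m`
  have f4 : (l : ℝ) ^ 2 * m ≤ P * m := mul_le_mul_of_nonneg_right e2 (by linarith)
  -- `J (l + m + 1) ≤ P`
  have f5 : (J : ℝ) * (l + m + 1) ≤ P := by
    have g1 : (l : ℝ) + m + 1 ≤ 11 / 10 * l := by linarith
    have g2 : (J : ℝ) * (l + m + 1) ≤ 4 / 5 * l * (11 / 10 * l) :=
      mul_le_mul hJb g1 (by positivity) (by positivity)
    have g3 : 4 / 5 * (l : ℝ) * (11 / 10 * l) ≤ l ^ 2 := by nlinarith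
    linarith
  have hP1 : (0 : ℝ) < P := by
    have : (0 : ℝ) < (l : ℝ) ^ 2 := by positivity
    linarith
  have f6 : (P : ℝ) ≤ P * m := by nlinarith
  have hmain : (l : ℝ) * (d + J + l * m) < 2 * (J * d) := by
    nlinarith
  exact_mod_cast hmain

/-- Numerical facts: the final bound. -/
theorem final_bound (P l d J c m A : ℕ) (q : ℝ) (hm : 1 ≤ m) (hq : q ^ 2 = P) (hq0 : 0 < q)
    (hq20 : 20 * (m : ℝ) < q) (hlq : (l : ℝ) ≤ q) (hql : q < l + 1) (hc : P = 2 * c + 1)
    (hd' : 2 * d + m ≤ P) (hJ' : 2 * J ≤ l + 1 + 4 * m + 4) (hJ1 : 1 ≤ J)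
    (h : l * A ≤ (l + c) * m + d + P * (J - 1)) :
    (A : ℝ) ≤ P / 2 + 5 * m * q := by
  have e1 : (1 : ℝ) ≤ m := by exact_mod_cast hm
  have e2 : (P : ℝ) = 2 * c + 1 := by exact_mod_cast hc
  have e5 : 2 * (d : ℝ) + m ≤ P := by exact_mod_cast hd'
  have e7 : 2 * (J : ℝ) ≤ l + 1 + 4 * m + 4 := by exact_mod_cast hJ'
  have e8 : (l : ℝ) * A ≤ (l + c) * m + d + P * ((J : ℝ) - 1) := by
    have : ((l * A : ℕ) : ℝ) ≤ (((l + c) * m + d + P * (J - 1) : ℕ) : ℝ) := by exact_mod_cast h
    push_cast [Nat.cast_sub hJ1] at this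
    exact this
  have hP0 : (0 : ℝ) ≤ P := Nat.cast_nonneg P
  have hl : 19 / 20 * q ≤ l := by linarith
  by_contra hcon
  push Not at hcon
  have hl0 : (0 : ℝ) < l := by linarith
  have g1 : (l : ℝ) * (P / 2 + 5 * m * q) < l * A := mul_lt_mul_of_pos_left hcon hl0
  have g2 : (c : ℝ) * m ≤ P / 2 * m := mul_le_mul_of_nonneg_right (by linarith) (by linarith)
  have g3 : (P : ℝ) * ((J : ℝ) - 1) ≤ P * ((l + 1) / 2 + 2 * m + 1) :=
    mul_le_mul_of_nonneg_left (by linarith) hP0
  have g4 : (l : ℝ) * m ≤ q * m := mul_le_mul_of_nonneg_right hlq (by linarith)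
  have g5 : q * m ≤ P * m / 20 := by
    have : q * m * 20 ≤ q ^ 2 * m := by
      have h1 : q * 20 ≤ q ^ 2 := by nlinarith
      have := mul_le_mul_of_nonneg_right h1 (by linarith : (0 : ℝ) ≤ m)
      linarith
    rw [hq] at this
    linarith
  have g6 : 19 / 20 * q * (5 * m * q) ≤ l * (5 * m * q) :=
    mul_le_mul_of_nonneg_right hl (by positivity)
  have g7 : 19 / 20 * q * (5 * m * q) = 19 / 4 * (P * m) := by
    rw [← hq]
    ring
  have g8 : (P : ℝ) ≤ P * m := by nlinarith
  have hP1 : (0 : ℝ) < P * m := by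
    have : (0 : ℝ) < P := by
      rw [← hq]
      positivity
    positivity
  nlinarith

end WeilB

open WeilB

/-- **Module LVL_WeilB.** The Weil bound for products of distinct shifts. -/
theorem weil (hN : StmtNonvanish) (hD : StmtDeriv) : StmtWeil := by
  classical
  intro p hpf hp2 I hI
  have hprime : p.Prime := hpf.out
  set m := I.card with hm
  have hm1 : 1 ≤ m := Finset.card_pos.2 hI
  have hmr : (1 : ℝ) ≤ m := by exact_mod_cast hm1
  have hq0 : 0 < Real.sqrt p := Real.sqrt_pos.2 (by exact_mod_cast hprime.pos)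
  have hq2 : Real.sqrt p ^ 2 = p := Real.sq_sqrt (Nat.cast_nonneg p)
  -- the summands
  have hterm : ∀ a : ZMod p, ∏ i ∈ I, ((quadraticChar (ZMod p) (a + i) : ℤ) : ℝ) =
      ((quadraticChar (ZMod p) (∏ i ∈ I, (a + i)) : ℤ) : ℝ) := by
    intro a
    rw [map_prod]
    push_cast
    rfl
  have hval : ∀ y : ZMod p, quadraticChar (ZMod p) y = 0 ∨ quadraticChar (ZMod p) y = 1 ∨
      quadraticChar (ZMod p) y = -1 := by
    intro y
    by_cases hy : y = 0
    · left
      rw [hy]
      exact quadraticChar_zero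
    · right
      exact quadraticChar_dichotomy hy
  by_cases htriv : Real.sqrt p ≤ 20 * m
  · -- trivial case
    have h1 : |∑ a : ZMod p, ∏ i ∈ I, ((quadraticChar (ZMod p) (a + i) : ℤ) : ℝ)| ≤ p := by
      refine (Finset.abs_sum_le_sum_abs _ _).trans ?_
      have h2 : ∀ a ∈ (Finset.univ : Finset (ZMod p)),
          |∏ i ∈ I, ((quadraticChar (ZMod p) (a + i) : ℤ) : ℝ)| ≤ 1 := by
        intro a _
        rw [hterm a]
        rcases hval (∏ i ∈ I, (a + i)) with h | h | h <;> rw [h] <;> norm_num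
      refine (Finset.sum_le_card_nsmul _ _ 1 h2).trans ?_
      rw [Finset.card_univ, ZMod.card, nsmul_eq_mul, mul_one]
    refine h1.trans ?_
    have h3 : Real.sqrt p * Real.sqrt p ≤ 20 * m * Real.sqrt p :=
      mul_le_mul_of_nonneg_right htriv hq0.le
    have h4 : Real.sqrt p * Real.sqrt p = p := by rw [← pow_two, hq2]
    linarith
  push Not at htriv
  -- the square root
  set l := Nat.sqrt p with hl
  have hl2 : l ^ 2 ≤ p := Nat.sqrt_le' p
  have hl2' : p < (l + 1) ^ 2 := Nat.lt_succ_sqrt' p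
  have hlq : (l : ℝ) ≤ Real.sqrt p := Real.le_sqrt_of_sq_le (by exact_mod_cast hl2)
  have hql : Real.sqrt p < l + 1 := by
    rw [Real.sqrt_lt' (by positivity)]
    exact_mod_cast hl2'
  have hl20 : 20 * m ≤ l := by
    have h1 : (20 * (m : ℝ)) < l + 1 := htriv.trans hql
    have h2 : 20 * m < l + 1 := by exact_mod_cast h1
    omega
  have hlp : l ≤ p := Nat.sqrt_le_self p
  have hmp : m < p := by nlinarith
  -- the shift
  obtain ⟨x0, hx0⟩ : ∃ x0 : ZMod p, ∀ i ∈ I, x0 + i ≠ 0 := by
    have hcard : (I.image fun i => -i).card < (Finset.univ : Finset (ZMod p)).card := by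
      rw [Finset.card_univ, ZMod.card]
      exact lt_of_le_of_lt Finset.card_image_le hmp
    obtain ⟨x0, _, hx0⟩ := Finset.exists_mem_notMem_of_card_lt_card hcard
    refine ⟨x0, fun i hi h => hx0 ?_⟩
    rw [Finset.mem_image]
    exact ⟨i, hi, (eq_neg_of_add_eq_zero_left h).symm⟩
  set f : (ZMod p)[X] := ∏ i ∈ I, (X + C (x0 + i)) with hf
  have hmonic : ∀ i ∈ I, (X + C (x0 + i) : (ZMod p)[X]).Monic := fun i _ => monic_X_add_C _
  have hfdeg : f.natDegree = m := by
    rw [hf, natDegree_prod_of_monic _ _ hmonic]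
    have h1 : ∀ i ∈ I, (X + C (x0 + i) : (ZMod p)[X]).natDegree = 1 :=
      fun i _ => natDegree_X_add_C _
    rw [Finset.sum_congr rfl h1, Finset.sum_const, smul_eq_mul, mul_one]
  have hfsq : Squarefree f := by
    apply Separable.squarefree
    rw [hf]
    apply separable_prod'
    · intro i _ j _ hij
      have h1 : (X + C (x0 + i) : (ZMod p)[X]) = X - C (-(x0 + i)) := by
        rw [C_neg, sub_neg_eq_add]
      have h2 : (X + C (x0 + j) : (ZMod p)[X]) = X - C (-(x0 + j)) := by
        rw [C_neg, sub_neg_eq_add]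
      rw [h1, h2]
      apply isCoprime_X_sub_C_of_isUnit_sub
      rw [isUnit_iff_ne_zero]
      intro h
      apply hij
      have : -(x0 + i) - -(x0 + j) = j - i := by ring
      rw [this, sub_eq_zero] at h
      exact h.symm
    · intro i _
      exact separable_X_add_C _
  have hfeval : ∀ a : ZMod p, f.eval a = ∏ i ∈ I, (a + x0 + i) := by
    intro a
    rw [hf, eval_prod]
    refine Finset.prod_congr rfl fun i _ => ?_
    rw [eval_add, eval_X, eval_C]
    ring
  have hf0 : f.eval 0 ≠ 0 := by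
    rw [hfeval, Finset.prod_ne_zero_iff]
    intro i hi
    rw [zero_add]
    exact hx0 i hi
  -- parameters
  set c := p / 2 with hc
  have hpc : p = 2 * c + 1 := by
    have := hprime.eq_two_or_odd
    omega
  set d := (p - m) / 2 with hd
  set J := (l + 1) / 2 + 2 * m + 2 with hJ
  have hd1 : p ≤ 2 * d + m + 1 := by omega
  have hd2 : 2 * d + m ≤ p := by omega
  have hJ1 : l + 4 * m + 4 ≤ 2 * J := by omega
  have hJ2 : 2 * J ≤ l + 1 + 4 * m + 4 := by omega
  have hJ3 : 1 ≤ J := by omega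
  have hdim : l * (d + J + l * f.natDegree) < 2 * (J * d) := by
    rw [hfdeg]
    exact dim_count p l d J m hm1 hl2 hl20 hd1 hd2 hJ1 hJ2
  have hst := fun a0 : ZMod p => stepanov hN hD f c l J d hpc hfsq (by rw [hfdeg]; exact hm1) hf0
    (by rw [hfdeg]; exact hd2) (by omega) hlp hJ3 hdim a0
  rw [hfdeg] at hst
  -- the character
  have hring : ringChar (ZMod p) ≠ 2 := by
    rw [ZMod.ringChar_zmod_n]
    exact hp2
  have hchar : ∀ y : ZMod p, ((quadraticChar (ZMod p) y : ℤ) : ZMod p) = y ^ c := by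
    intro y
    have := quadraticChar_eq_pow_of_char_ne_two' hring y
    rw [ZMod.card] at this
    exact this
  set Z1 := Finset.univ.filter fun x : ZMod p => quadraticChar (ZMod p) (f.eval x) = 1 with hZ1
  set Z2 := Finset.univ.filter fun x : ZMod p => quadraticChar (ZMod p) (f.eval x) = -1 with hZ2
  set Z0 := Finset.univ.filter fun x : ZMod p => quadraticChar (ZMod p) (f.eval x) = 0 with hZ0
  have hA : (Z1.card : ℝ) ≤ p / 2 + 5 * m * Real.sqrt p := by
    refine final_bound p l d J c m Z1.card (Real.sqrt p) hm1 hq2 hq0 htriv hlq hql hpc hd2 hJ2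
      hJ3 (le_trans ?_ (hst 1))
    apply Nat.mul_le_mul_left
    apply Finset.card_le_card
    intro x hx
    rw [hZ1, Finset.mem_filter] at hx
    rw [Finset.mem_filter]
    refine ⟨hx.1, ?_⟩
    rw [← hchar, hx.2]
    simp
  have hB : (Z2.card : ℝ) ≤ p / 2 + 5 * m * Real.sqrt p := by
    refine final_bound p l d J c m Z2.card (Real.sqrt p) hm1 hq2 hq0 htriv hlq hql hpc hd2 hJ2
      hJ3 (le_trans ?_ (hst (-1)))
    apply Nat.mul_le_mul_left
    apply Finset.card_le_card
    intro x hx
    rw [hZ2, Finset.mem_filter] at hx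
    rw [Finset.mem_filter]
    refine ⟨hx.1, ?_⟩
    rw [← hchar, hx.2]
    simp
  have hC : (Z0.card : ℝ) ≤ m := by
    have h1 : Z0 ⊆ f.roots.toFinset := by
      intro x hx
      rw [hZ0, Finset.mem_filter, quadraticChar_eq_zero_iff] at hx
      rw [Multiset.mem_toFinset, mem_roots hfsq.ne_zero]
      exact hx.2
    have h2 := (Finset.card_le_card h1).trans (Multiset.toFinset_card_le _)
    have h3 := h2.trans (card_roots' f)
    rw [hfdeg] at h3
    exact_mod_cast h3
  -- the sum
  have hsum : ∑ a : ZMod p, ∏ i ∈ I, ((quadraticChar (ZMod p) (a + i) : ℤ) : ℝ) =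
      (Z1.card : ℝ) - Z2.card := by
    have h1 : ∑ a : ZMod p, ∏ i ∈ I, ((quadraticChar (ZMod p) (a + i) : ℤ) : ℝ) =
        ∑ a : ZMod p, ((quadraticChar (ZMod p) (f.eval a) : ℤ) : ℝ) := by
      rw [← Equiv.sum_comp (Equiv.addRight x0)]
      refine Finset.sum_congr rfl fun a _ => ?_
      rw [hterm, hfeval]
      rfl
    rw [h1]
    have h2 : ∀ a : ZMod p, ((quadraticChar (ZMod p) (f.eval a) : ℤ) : ℝ) =
        (if quadraticChar (ZMod p) (f.eval a) = 1 then (1 : ℝ) else 0) -
        (if quadraticChar (ZMod p) (f.eval a) = -1 then (1 : ℝ) else 0) := by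
      intro a
      rcases hval (f.eval a) with h | h | h <;> rw [h] <;> norm_num
    rw [Finset.sum_congr rfl fun a _ => h2 a, Finset.sum_sub_distrib, Finset.sum_boole,
      Finset.sum_boole]
  have htot : (Z1.card : ℝ) + Z2.card + Z0.card = p := by
    have h1 : (Finset.univ : Finset (ZMod p)).card = Z1.card + Z2.card + Z0.card := by
      have h2 : ∀ a : ZMod p, (if quadraticChar (ZMod p) (f.eval a) = 1 then (1 : ℕ) else 0) +
          (if quadraticChar (ZMod p) (f.eval a) = -1 then (1 : ℕ) else 0) +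
          (if quadraticChar (ZMod p) (f.eval a) = 0 then (1 : ℕ) else 0) = 1 := by
        intro a
        rcases hval (f.eval a) with h | h | h <;> rw [h] <;> norm_num
      have h3 := Finset.sum_congr (rfl : (Finset.univ : Finset (ZMod p)) = Finset.univ)
        fun a _ => h2 a
      rw [Finset.sum_add_distrib, Finset.sum_add_distrib, Finset.sum_boole, Finset.sum_boole,
        Finset.sum_boole, Finset.sum_const, smul_eq_mul, mul_one] at h3
      exact_mod_cast h3.symm
    rw [Finset.card_univ, ZMod.card] at h1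
    exact_mod_cast h1.symm
  rw [hsum, abs_le]
  have hmq : (m : ℝ) ≤ m * Real.sqrt p := by nlinarith
  constructor <;> nlinarith

end Pool.Agent.LVL
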